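import Pool.Agent.helper95.T6.SpecE

/-! # T6, row ENU: the sizes for the upper bound (adapted from the row WNU of helper78) -/

set_option autoImplicit false

namespace Pool.Agent.T6

open Finset Pool.Agent.helper3.FT Pool.Agent.T5

theorem ENU_core (κ k a b m h P₁ P₂ P₃ P₄ e T L L' N₁ K₁ : ℝ) (hκ : 0 < κ) (hk : κ * k = 1) (hk1 : 1 ≤ k)
    (ha : 0 < a) (hb : 1 ≤ b)
    (hm : 0 < m) (hh : 0 < h) (hP₁ : 0 < P₁) (hP₂ : 0 < P₂) (hP₃ : 0 < P₃) (hP₄ : 0 < P₄) (he : 0 < e)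
    (hPP : P₃ * P₄ = P₁ * P₂)
    (rel : a ^ 3 * b = h * m) (T1 : T ≤ 81 / 4 * (P₃ * e * h ^ 2))
    (L1 : 6 * (k * m) ≤ P₁ * e * L) (L2 : P₁ * e * L ≤ 8 * (k * m)) (L1' : 8 * (b ^ 4 * m) ≤ P₂ * e * L')
    (L2' : P₂ * e * L' ≤ 10 * (b ^ 4 * m)) (n1 : κ ^ 2 * a ≤ N₁) (n2 : N₁ ≤ 6 * a)
    (k1 : κ ^ 2 * (b ^ 2 * a) ≤ K₁) (k2 : K₁ ≤ 6 * (b ^ 2 * a)) :
    P₂ * (32 * (T * e * P₄) * L' / N₁ ^ 3) ≤ 6480 * k ^ 6 * (h * (P₁ * P₂ * e) * b ^ 5) ∧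
    P₂ * (K₁ ^ 3 / L) ≤ 36 * (h * (P₁ * P₂ * e) * b ^ 5) ∧
    P₁ * (32 * (T * e * P₄) * L / N₁ ^ 3) ≤ 5184 * k ^ 7 * (h * (P₁ * P₂ * e) * b) ∧
    P₂ * (2 * N₁ ^ 2 * K₁ / L) ≤ 72 * (h * (P₁ * P₂ * e) * b) ∧
    P₁ * (K₁ ^ 3 / L') ≤ 27 * (h * (P₁ * P₂ * e) * b) ∧
    4 * N₁ / K₁ ≤ 24 * k ^ 2 / b ^ 2 ∧
    P₂ * (5 * N₁ ^ 3 / L) ≤ 180 * (h * (P₁ * P₂ * e) / b) ∧
    P₁ * (N₁ ^ 3 / L') ≤ 27 * (h * (P₁ * P₂ * e) / b ^ 5) := by
  have hb0 : 0 < b := by linarith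
  have hN : 0 < N₁ := lt_of_lt_of_le (by positivity) n1
  have hK : 0 < K₁ := lt_of_lt_of_le (by positivity) k1
  have hk0 : 0 < k := by linarith
  have hE1 : 0 < P₁ * e := by positivity
  have hE2 : 0 < P₂ * e := by positivity
  have hL : 0 < L := by
    have h1 : 0 < P₁ * e * L := lt_of_lt_of_le (by positivity) L1
    exact (mul_pos_iff_of_pos_left hE1).mp h1
  have hL' : 0 < L' := by
    have h1 : 0 < P₂ * e * L' := lt_of_lt_of_le (by positivity) L1'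
    exact (mul_pos_iff_of_pos_left hE2).mp h1
  have hN3 : (κ ^ 2 * a) ^ 3 ≤ N₁ ^ 3 := pow_le_pow_left₀ (by positivity) n1 3
  have hN3' : N₁ ^ 3 ≤ (6 * a) ^ 3 := pow_le_pow_left₀ hN.le n2 3
  have hN2' : N₁ ^ 2 ≤ (6 * a) ^ 2 := pow_le_pow_left₀ hN.le n2 2
  have hK3' : K₁ ^ 3 ≤ (6 * (b ^ 2 * a)) ^ 3 := pow_le_pow_left₀ hK.le k2 3
  have hkk : ∀ j : ℕ, k ^ j * κ ^ j = 1 := by
    intro j
    rw [← mul_pow, mul_comm k κ, hk, one_pow]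
  have L1a : 6 * m ≤ P₁ * e * L := by
    refine le_trans ?_ L1
    nlinarith [mul_nonneg (sub_nonneg.mpr hk1) hm.le]
  refine ⟨?_, ?_, ?_, ?_, ?_, ?_, ?_, ?_⟩
  · rw [← mul_div_assoc, div_le_iff₀ (pow_pos hN 3)]
    calc P₂ * (32 * (T * e * P₄) * L') = 32 * (P₄ * (P₂ * e * L')) * T := by ring
      _ ≤ 32 * (P₄ * (P₂ * e * L')) * (81 / 4 * (P₃ * e * h ^ 2)) :=
          mul_le_mul_of_nonneg_left T1 (by positivity)
      _ = 648 * h ^ 2 * (P₃ * P₄) * e * (P₂ * e * L') := by ring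
      _ ≤ 648 * h ^ 2 * (P₃ * P₄) * e * (10 * (b ^ 4 * m)) := mul_le_mul_of_nonneg_left L2' (by positivity)
      _ = 6480 * h * (P₃ * P₄) * e * b ^ 4 * (h * m) := by ring
      _ = 6480 * h * (P₁ * P₂) * e * b ^ 4 * (a ^ 3 * b) := by rw [rel, hPP]
      _ = 6480 * (k ^ 6 * κ ^ 6) * h * (P₁ * P₂) * e * b ^ 4 * (a ^ 3 * b) := by rw [hkk 6]; ring
      _ = 6480 * k ^ 6 * (h * (P₁ * P₂ * e) * b ^ 5) * (κ ^ 2 * a) ^ 3 := by ring
      _ ≤ _ := mul_le_mul_of_nonneg_left hN3 (by positivity)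
  · rw [← mul_div_assoc, div_le_iff₀ hL]
    calc P₂ * K₁ ^ 3 ≤ P₂ * (6 * (b ^ 2 * a)) ^ 3 := mul_le_mul_of_nonneg_left hK3' hP₂.le
      _ = P₂ * (216 * b ^ 5 * (a ^ 3 * b)) := by ring
      _ = P₂ * (36 * (h * b ^ 5)) * (6 * m) := by rw [rel]; ring
      _ ≤ P₂ * (36 * (h * b ^ 5)) * (P₁ * e * L) := mul_le_mul_of_nonneg_left L1a (by positivity)
      _ = _ := by ring
  · rw [← mul_div_assoc, div_le_iff₀ (pow_pos hN 3)]
    calc P₁ * (32 * (T * e * P₄) * L) = 32 * (P₄ * (P₁ * e * L)) * T := by ring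
      _ ≤ 32 * (P₄ * (P₁ * e * L)) * (81 / 4 * (P₃ * e * h ^ 2)) :=
          mul_le_mul_of_nonneg_left T1 (by positivity)
      _ = 648 * h ^ 2 * (P₃ * P₄) * e * (P₁ * e * L) := by ring
      _ ≤ 648 * h ^ 2 * (P₃ * P₄) * e * (8 * (k * m)) := mul_le_mul_of_nonneg_left L2 (by positivity)
      _ = 5184 * h * (P₃ * P₄) * e * k * (h * m) := by ring
      _ = 5184 * h * (P₁ * P₂) * e * k * (a ^ 3 * b) := by rw [rel, hPP]
      _ = 5184 * (k ^ 6 * κ ^ 6) * h * (P₁ * P₂) * e * k * (a ^ 3 * b) := by rw [hkk 6]; ring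
      _ = 5184 * k ^ 7 * (h * (P₁ * P₂ * e) * b) * (κ ^ 2 * a) ^ 3 := by ring
      _ ≤ _ := mul_le_mul_of_nonneg_left hN3 (by positivity)
  · rw [← mul_div_assoc, div_le_iff₀ hL]
    calc P₂ * (2 * N₁ ^ 2 * K₁) ≤ P₂ * (2 * (6 * a) ^ 2 * (6 * (b ^ 2 * a))) := by
          refine mul_le_mul_of_nonneg_left ?_ hP₂.le
          refine mul_le_mul ?_ k2 hK.le (by positivity)
          linarith
      _ = P₂ * (432 * b * (a ^ 3 * b)) := by ring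
      _ = P₂ * (72 * (h * b)) * (6 * m) := by rw [rel]; ring
      _ ≤ P₂ * (72 * (h * b)) * (P₁ * e * L) := mul_le_mul_of_nonneg_left L1a (by positivity)
      _ = _ := by ring
  · rw [← mul_div_assoc, div_le_iff₀ hL']
    calc P₁ * K₁ ^ 3 ≤ P₁ * (6 * (b ^ 2 * a)) ^ 3 := mul_le_mul_of_nonneg_left hK3' hP₁.le
      _ = P₁ * (216 * b ^ 5 * (a ^ 3 * b)) := by ring
      _ = P₁ * (27 * (h * b)) * (8 * (b ^ 4 * m)) := by rw [rel]; ring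
      _ ≤ P₁ * (27 * (h * b)) * (P₂ * e * L') := mul_le_mul_of_nonneg_left L1' (by positivity)
      _ = _ := by ring
  · rw [div_le_div_iff₀ hK (by positivity)]
    calc 4 * N₁ * b ^ 2 ≤ 4 * (6 * a) * b ^ 2 := by
          refine mul_le_mul_of_nonneg_right ?_ (by positivity)
          linarith
      _ = 24 * (k ^ 2 * κ ^ 2) * (b ^ 2 * a) := by rw [hkk 2]; ring
      _ = 24 * k ^ 2 * (κ ^ 2 * (b ^ 2 * a)) := by ring
      _ ≤ 24 * k ^ 2 * K₁ := mul_le_mul_of_nonneg_left k1 (by positivity)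
  · rw [← mul_div_assoc, div_le_iff₀ hL]
    calc P₂ * (5 * N₁ ^ 3) ≤ P₂ * (5 * (6 * a) ^ 3) := mul_le_mul_of_nonneg_left (by linarith) hP₂.le
      _ = P₂ * (1080 * (a ^ 3 * b) / b) := by field_simp; ring
      _ = P₂ * (180 * (h / b)) * (6 * m) := by rw [rel]; ring
      _ ≤ P₂ * (180 * (h / b)) * (P₁ * e * L) := mul_le_mul_of_nonneg_left L1a (by positivity)
      _ = _ := by ring
  · rw [← mul_div_assoc, div_le_iff₀ hL']
    calc P₁ * N₁ ^ 3 ≤ P₁ * (6 * a) ^ 3 := mul_le_mul_of_nonneg_left hN3' hP₁.le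
      _ = P₁ * (216 * (a ^ 3 * b) / b) := by field_simp; ring
      _ = P₁ * (27 * (h / b ^ 5)) * (8 * (b ^ 4 * m)) := by rw [rel]; field_simp; ring
      _ ≤ P₁ * (27 * (h / b ^ 5)) * (P₂ * e * L') := mul_le_mul_of_nonneg_left L1' (by positivity)
      _ = _ := by ring

/-- the real numbers `R = N^(1/40)` -/
theorem ENU_R (N M : ℝ) (hM : 1 ≤ M) (hN : M ^ 20 ≤ N) : ∃ R : ℝ, 1 ≤ R ∧ R ^ 40 = N ∧ M ≤ R ^ 2 ∧ R = N ^ (1 / 40 : ℝ) := by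
  have h0 : (1 : ℝ) ≤ N := le_trans (one_le_pow₀ hM) hN
  refine ⟨N ^ (1 / 40 : ℝ), ?_, ?_, ?_, rfl⟩
  · exact Real.one_le_rpow h0 (by norm_num)
  · rw [← Real.rpow_natCast, ← Real.rpow_mul (by linarith)]
    norm_num
  · have h1 : (N ^ (1 / 40 : ℝ)) ^ 2 = N ^ (1 / 20 : ℝ) := by
      rw [← Real.rpow_natCast, ← Real.rpow_mul (by linarith)]
      norm_num
    rw [h1]
    have h2 : (M ^ 20) ^ (1 / 20 : ℝ) = M := by
      rw [← Real.rpow_natCast, ← Real.rpow_mul (by linarith)]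
      norm_num
    rw [← h2]
    exact Real.rpow_le_rpow (by positivity) hN (by norm_num)

/-- the last inequality: `u⁴ = p`, `v⁴ = P₄`, `t⁴ = T` -/
theorem ENU_err (k e b m a c w u v t T M D r s : ℝ) (hk1 : 1 ≤ k) (he : 1 ≤ e) (hD : 1 ≤ D) (hb : 1 ≤ b) (ha : 0 < a)
    (hc : 0 < c) (hw : 0 < w) (hu : 1 ≤ u) (hv : 1 ≤ v) (ht : 0 < t) (hT : t ^ 4 = T) (hm : m = w * a) (hac : a = c * w)
    (hM0 : 0 ≤ M) (hM : M ≤ 36 * (a ^ 2 * b ^ 2) / v ^ 4) (hTM : T ≤ 81 / 4 * k ^ 4 * e * M * (u ^ 4 * c ^ 2))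
    (hr0 : 0 ≤ r) (hr : r ≤ D * e * (u ^ 3 * v ^ 3 * t ^ 3)) (hs : s ≤ 9 * k * b ^ 2 * m / (e * u ^ 2)) :
    1 / T * (s * (T * M + r * (T * t + M * t))) ≤ 14000 * D * k ^ 5 * e * (b ^ 4 * w ^ 4 * (c ^ 3 * u * (1 + u ^ 4 * c ^ 2))) := by
  have hT0 : 0 < T := by rw [← hT]; positivity
  have hu0 : 0 < u := by linarith
  have hv0 : 0 < v := by linarith
  have hb0 : 0 < b := by linarith
  have hk0 : 0 < k := by linarith
  have he0 : 0 < e := by linarith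
  have hD0 : 0 < D := by linarith
  have hm0 : 0 < m := by rw [hm]; positivity
  set Z : ℝ := 1 + u ^ 4 * c ^ 2 with hZ
  have hZ1 : 1 ≤ Z := by
    rw [hZ]
    have : 0 ≤ u ^ 4 * c ^ 2 := by positivity
    linarith
  have hk4 : 1 ≤ k ^ 4 := one_le_pow₀ hk1
  have huv : 1 ≤ u ^ 3 * v ^ 3 := one_le_mul_of_one_le_of_one_le (one_le_pow₀ hu) (one_le_pow₀ hv)
  -- T + M
  have hTM2 : T + M ≤ 21 * k ^ 4 * e * M * Z := by
    have h1 : M ≤ k ^ 4 * e * M := by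
      have h2 : 1 ≤ k ^ 4 * e := one_le_mul_of_one_le_of_one_le hk4 he
      nlinarith
    have h3 : 0 ≤ k ^ 4 * e * M := by positivity
    have h4 : 0 ≤ k ^ 4 * e * M * (u ^ 4 * c ^ 2) := by positivity
    rw [hZ]
    nlinarith
  have hbr : T * M + r * (T * t + M * t) ≤ T * (22 * D * k ^ 4 * e ^ 2 * (u ^ 3 * v ^ 3) * M * Z) := by
    have h1 : r * (T * t + M * t) ≤ T * (21 * D * k ^ 4 * e ^ 2 * (u ^ 3 * v ^ 3) * M * Z) := by
      calc r * (T * t + M * t) = r * t * (T + M) := by ring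
        _ ≤ (D * e * (u ^ 3 * v ^ 3 * t ^ 3)) * t * (21 * k ^ 4 * e * M * Z) := by
            refine mul_le_mul (mul_le_mul_of_nonneg_right hr ht.le) hTM2 (by positivity) (by positivity)
        _ = t ^ 4 * (21 * D * k ^ 4 * e ^ 2 * (u ^ 3 * v ^ 3) * M * Z) := by ring
        _ = _ := by rw [hT]
    have h2 : M ≤ D * k ^ 4 * e ^ 2 * (u ^ 3 * v ^ 3) * M * Z := by
      have h3 : 1 ≤ D * k ^ 4 * e ^ 2 * (u ^ 3 * v ^ 3) * Z := by
        refine one_le_mul_of_one_le_of_one_le (one_le_mul_of_one_le_of_one_le (one_le_mul_of_one_le_of_one_le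
          (one_le_mul_of_one_le_of_one_le hD hk4) (one_le_pow₀ he)) huv) hZ1
      calc M = 1 * M := (one_mul M).symm
        _ ≤ (D * k ^ 4 * e ^ 2 * (u ^ 3 * v ^ 3) * Z) * M := mul_le_mul_of_nonneg_right h3 hM0
        _ = _ := by ring
    have h4 : T * M ≤ T * (D * k ^ 4 * e ^ 2 * (u ^ 3 * v ^ 3) * M * Z) := mul_le_mul_of_nonneg_left h2 hT0.le
    calc T * M + r * (T * t + M * t) ≤ T * (D * k ^ 4 * e ^ 2 * (u ^ 3 * v ^ 3) * M * Z) +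
          T * (21 * D * k ^ 4 * e ^ 2 * (u ^ 3 * v ^ 3) * M * Z) := add_le_add h4 h1
      _ = _ := by ring
  calc 1 / T * (s * (T * M + r * (T * t + M * t))) ≤ 1 / T * ((9 * k * b ^ 2 * m / (e * u ^ 2)) *
        (T * (22 * D * k ^ 4 * e ^ 2 * (u ^ 3 * v ^ 3) * M * Z))) := by
        refine mul_le_mul_of_nonneg_left ?_ (by positivity)
        exact mul_le_mul hs hbr (by positivity) (by positivity)
    _ = 198 * D * k ^ 5 * e * u * v ^ 3 * b ^ 2 * m * Z * M := by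
        field_simp
        ring
    _ ≤ 198 * D * k ^ 5 * e * u * v ^ 3 * b ^ 2 * m * Z * (36 * (a ^ 2 * b ^ 2) / v ^ 4) :=
        mul_le_mul_of_nonneg_left hM (by positivity)
    _ = 7128 * D * k ^ 5 * e * (b ^ 4 * w ^ 4 * (c ^ 3 * u * Z)) / v := by
        rw [hm, hac]
        field_simp
        ring
    _ ≤ 7128 * D * k ^ 5 * e * (b ^ 4 * w ^ 4 * (c ^ 3 * u * Z)) := div_le_self (by positivity) hv
    _ ≤ _ := by
        have h1 : 0 ≤ D * k ^ 5 * e * (b ^ 4 * w ^ 4 * (c ^ 3 * u * Z)) := by positivity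
        linarith

/-- the final sizes, with the numbers `w = √Y`, `a = sN`, `m = w a`, `h = a² b / w` -/
theorem ENU_fin (κ k R w a b : ℝ) (hκ : 0 < κ) (hk : κ * k = 1) (hk1 : 1 ≤ k)
    (hR : 1 ≤ R) (hR2 : 1000 * k ^ 8 ≤ R ^ 2) (hw : 0 < w) (ha : 0 < a) (hb : 1 ≤ b)
    (hp1 : R ^ 19 ≤ w ^ 2) (hap : 1 ≤ R ^ 3 * (a / w) ^ 2) (e p P₁ P₂ P₃ P₄ : ℕ) (he : 1 ≤ e) (heR : (e : ℝ) ≤ R)
    (hp : 1 ≤ p) (hpR : (p : ℝ) ≤ R)
    (h12 : P₁ * P₂ = p) (h34 : P₃ * P₄ = p) (N₁ K₁ : ℕ) (n1 : κ ^ 2 * a ≤ N₁) (n2 : (N₁ : ℝ) ≤ 6 * a)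
    (k1 : κ ^ 2 * (b ^ 2 * a) ≤ K₁) (k2 : (K₁ : ℝ) ≤ 6 * (b ^ 2 * a)) :
    e * p ≤ N₁ ∧ e * p ≤ K₁ ∧ ∃ (L L' T : ℕ) (ρ : ℝ), EB N₁ K₁ L L' T e P₁ P₂ P₄ b ρ ∧ R ^ 10 ≤ T ∧
      64 * T * w ^ 2 ≤ P₃ * ((N₁ : ℝ) ^ 3 * K₁ * e) ∧
      6 / κ * (w * a) + P₁ * e ≤ P₁ * e * (L : ℝ) ∧ 8 * (b ^ 4 * (w * a)) + P₂ * e ≤ P₂ * e * (L' : ℝ) ∧
      (N₁ : ℝ) * K₁ * (L * L' / T) ≤ (10 ^ 6 * k ^ 9) * (b ^ 4 * w ^ 4 / (p * P₃ * (e : ℝ) ^ 3)) ∧
      1 / (T : ℝ) * (√(L * L' : ℝ) * (T * (N₁ * K₁ / P₄) + ρ ^ (3 / 2 : ℝ) * ((T : ℝ) ^ (5 / 4 : ℝ) + N₁ * K₁ * (T : ℝ) ^ (1 / 4 : ℝ) / P₄))) ≤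
        (10 ^ 17 * k ^ 31 * e) * (b ^ 4 * w ^ 4 * ((a / w) ^ 3 * (p : ℝ) ^ (1 / 4 : ℝ) * (1 + p * (a / w) ^ 2))) := by
  have hk0 : 0 < k := by linarith
  have hb0 : 0 < b := by linarith
  have hR0 : 0 < R := by linarith
  have hkk : ∀ j : ℕ, k ^ j * κ ^ j = 1 := by
    intro j
    rw [← mul_pow, mul_comm k κ, hk, one_pow]
  have hkp : ∀ i : ℕ, 1 ≤ k ^ i := fun i => one_le_pow₀ hk1
  have heR1 : (1 : ℝ) ≤ e := by exact_mod_cast he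
  have hpR1 : (1 : ℝ) ≤ p := by exact_mod_cast hp
  have hP : 1 ≤ P₁ ∧ 1 ≤ P₂ ∧ 1 ≤ P₃ ∧ 1 ≤ P₄ := by
    refine ⟨?_, ?_, ?_, ?_⟩ <;>
    · rw [Nat.one_le_iff_ne_zero]
      rintro rfl
      simp only [zero_mul, mul_zero] at h12 h34
      omega
  have hP₁ : (1 : ℝ) ≤ P₁ := by exact_mod_cast hP.1
  have hP₂ : (1 : ℝ) ≤ P₂ := by exact_mod_cast hP.2.1
  have hP₃ : (1 : ℝ) ≤ P₃ := by exact_mod_cast hP.2.2.1
  have hP₄ : (1 : ℝ) ≤ P₄ := by exact_mod_cast hP.2.2.2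
  have h12R : (P₁ : ℝ) * P₂ = p := by exact_mod_cast h12
  have h34R : (P₃ : ℝ) * P₄ = p := by exact_mod_cast h34
  have hP1p : (P₁ : ℝ) ≤ p := by rw [← h12R]; exact le_mul_of_one_le_right (by positivity) hP₂
  have hP2p : (P₂ : ℝ) ≤ p := by rw [← h12R]; exact le_mul_of_one_le_left (by positivity) hP₁
  -- the basic sizes
  set c := a / w with hc
  have hc0 : 0 < c := by positivity
  have hac : a = c * w := by rw [hc]; field_simp
  have hR3c : 1 ≤ R ^ 3 * c ^ 2 := hap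
  have ha2 : R ^ 16 ≤ a ^ 2 := by
    have h1 : R ^ 19 * 1 ≤ w ^ 2 * (R ^ 3 * c ^ 2) := mul_le_mul hp1 hR3c (by norm_num) (by positivity)
    have h2 : R ^ 3 * R ^ 16 ≤ R ^ 3 * a ^ 2 := by
      rw [hac]
      calc R ^ 3 * R ^ 16 = R ^ 19 * 1 := by ring
        _ ≤ _ := h1
        _ = _ := by ring
    exact le_of_mul_le_mul_left h2 (by positivity)
  have ha8 : R ^ 8 ≤ a := by
    have h1 : (R ^ 8) ^ 2 ≤ a ^ 2 := by
      calc (R ^ 8) ^ 2 = R ^ 16 := by ring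
        _ ≤ _ := ha2
    exact (pow_le_pow_iff_left₀ (by positivity) ha.le (by norm_num)).mp h1
  have hk8 : k ^ 8 ≤ R ^ 2 := by linarith [hkp 8]
  have hepR : (e : ℝ) * p ≤ R ^ 2 := by
    calc (e : ℝ) * p ≤ R * R := mul_le_mul heR hpR (by positivity) hR0.le
      _ = R ^ 2 := by ring
  have hκa : R ^ 2 ≤ κ ^ 2 * a := by
    have h1 : k ^ 2 ≤ R ^ 2 := le_trans (pow_le_pow_right₀ hk1 (by norm_num)) hk8
    calc R ^ 2 ≤ R ^ 6 := pow_le_pow_right₀ hR (by norm_num)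
      _ = κ ^ 2 * (k ^ 2 * R ^ 6) := by
          have := hkk 2
          linear_combination (-(R ^ 6)) * this
      _ ≤ κ ^ 2 * (R ^ 2 * R ^ 6) :=
          mul_le_mul_of_nonneg_left (mul_le_mul_of_nonneg_right h1 (by positivity)) (by positivity)
      _ = κ ^ 2 * R ^ 8 := by ring
      _ ≤ κ ^ 2 * a := mul_le_mul_of_nonneg_left ha8 (by positivity)
  have hepN : e * p ≤ N₁ := by
    have h1 : (e : ℝ) * p ≤ N₁ := le_trans hepR (le_trans hκa n1)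
    exact_mod_cast h1
  have hepK : e * p ≤ K₁ := by
    have h2 : κ ^ 2 * a ≤ κ ^ 2 * (b ^ 2 * a) :=
      mul_le_mul_of_nonneg_left (le_mul_of_one_le_left ha.le (one_le_pow₀ hb)) (by positivity)
    have h1 : (e : ℝ) * p ≤ K₁ := le_trans hepR (le_trans hκa (le_trans h2 k1))
    exact_mod_cast h1
  refine ⟨hepN, hepK, ?_⟩
  -- m, h
  set m := w * a with hm
  have hm0 : 0 < m := by positivity
  set h := a ^ 2 * b / w with hh
  have hh0 : 0 < h := by positivity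
  have rel : a ^ 3 * b = h * m := by rw [hh, hm]; field_simp
  have hh2 : h ^ 2 * w ^ 2 = a ^ 4 * b ^ 2 := by rw [hh]; field_simp
  have hwR : R ^ 9 ≤ w := by
    have h1 : (R ^ 9) ^ 2 ≤ w ^ 2 := by
      calc (R ^ 9) ^ 2 = R ^ 18 := by ring
        _ ≤ R ^ 19 := pow_le_pow_right₀ hR (by norm_num)
        _ ≤ _ := hp1
    exact (pow_le_pow_iff_left₀ (by positivity) hw.le (by norm_num)).mp h1
  have hmR : R ^ 2 ≤ m := by
    calc R ^ 2 ≤ R ^ 17 := pow_le_pow_right₀ hR (by norm_num)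
      _ = R ^ 9 * R ^ 8 := by ring
      _ ≤ w * a := mul_le_mul hwR ha8 (by positivity) hw.le
  have hE1m : (P₁ : ℝ) * e ≤ m := by
    calc (P₁ : ℝ) * e ≤ p * e := mul_le_mul_of_nonneg_right hP1p (by positivity)
      _ = e * p := by ring
      _ ≤ R ^ 2 := hepR
      _ ≤ m := hmR
  have hE2m : (P₂ : ℝ) * e ≤ m := by
    calc (P₂ : ℝ) * e ≤ p * e := mul_le_mul_of_nonneg_right hP2p (by positivity)
      _ = e * p := by ring
      _ ≤ R ^ 2 := hepR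
      _ ≤ m := hmR
  have hh13 : R ^ 13 ≤ h ^ 2 := by
    have h1 : h ^ 2 = c ^ 4 * w ^ 2 * b ^ 2 := by
      rw [hh, hac]; field_simp
    have h2 : 1 ≤ R ^ 6 * c ^ 4 := by
      calc (1 : ℝ) ≤ (R ^ 3 * c ^ 2) ^ 2 := one_le_pow₀ hR3c
        _ = _ := by ring
    have h3 : R ^ 6 * R ^ 13 ≤ R ^ 6 * h ^ 2 := by
      calc R ^ 6 * R ^ 13 = R ^ 19 * 1 * 1 := by ring
        _ ≤ w ^ 2 * (R ^ 6 * c ^ 4) * b ^ 2 := by
            refine mul_le_mul (mul_le_mul hp1 h2 (by norm_num) (by positivity)) (one_le_pow₀ hb) (by norm_num) (by positivity)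
        _ = R ^ 6 * h ^ 2 := by rw [h1]; ring
    exact le_of_mul_le_mul_left h3 (by positivity)
  -- the number X and T
  have hN0 : (0 : ℝ) < N₁ := lt_of_lt_of_le (by positivity) n1
  have hK0 : (0 : ℝ) < K₁ := lt_of_lt_of_le (by positivity) k1
  have hPe : (1 : ℝ) ≤ P₃ * e := one_le_mul_of_one_le_of_one_le hP₃ heR1
  set X : ℝ := P₃ * ((N₁ : ℝ) ^ 3 * K₁ * e) / (64 * w ^ 2) with hX
  have hX1 : κ ^ 8 * (P₃ * e * h ^ 2) / 64 ≤ X := by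
    rw [hX, div_le_div_iff₀ (by norm_num) (by positivity)]
    calc κ ^ 8 * (P₃ * e * h ^ 2) * (64 * w ^ 2) = 64 * κ ^ 8 * (P₃ * e) * (h ^ 2 * w ^ 2) := by ring
      _ = 64 * κ ^ 8 * (P₃ * e) * (a ^ 4 * b ^ 2) := by rw [hh2]
      _ = (κ ^ 2 * a) ^ 3 * (κ ^ 2 * (b ^ 2 * a)) * (P₃ * e) * 64 := by ring
      _ ≤ (N₁ : ℝ) ^ 3 * K₁ * (P₃ * e) * 64 := by
          refine mul_le_mul_of_nonneg_right (mul_le_mul_of_nonneg_right ?_ (by positivity)) (by norm_num)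
          exact mul_le_mul (pow_le_pow_left₀ (by positivity) n1 3) k1 (by positivity) (by positivity)
      _ = _ := by ring
  have hX2 : X ≤ 81 / 4 * (P₃ * e * h ^ 2) := by
    rw [hX, div_le_iff₀ (by positivity)]
    calc P₃ * ((N₁ : ℝ) ^ 3 * K₁ * e) = (N₁ : ℝ) ^ 3 * K₁ * (P₃ * e) := by ring
      _ ≤ (6 * a) ^ 3 * (6 * (b ^ 2 * a)) * (P₃ * e) := by
          refine mul_le_mul_of_nonneg_right ?_ (by positivity)
          exact mul_le_mul (pow_le_pow_left₀ hN0.le n2 3) k2 hK0.le (by positivity)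
      _ = 1296 * (P₃ * e) * (a ^ 4 * b ^ 2) := by ring
      _ = 1296 * (P₃ * e) * (h ^ 2 * w ^ 2) := by rw [hh2]
      _ = _ := by ring
  have hbig : 1000 * R ^ 10 ≤ κ ^ 8 * (P₃ * e * h ^ 2) := by
    calc 1000 * R ^ 10 = 1000 * (k ^ 8 * κ ^ 8) * R ^ 10 * 1 * 1 := by rw [hkk 8]; ring
      _ = κ ^ 8 * (1 * ((1000 * k ^ 8) * R ^ 10 * 1)) := by ring
      _ ≤ κ ^ 8 * ((P₃ * e) * (R ^ 2 * R ^ 10 * R)) := by
          refine mul_le_mul_of_nonneg_left (mul_le_mul hPe (mul_le_mul (mul_le_mul_of_nonneg_right hR2 (by positivity)) hR (by norm_num) (by positivity)) (by positivity) (by positivity)) (by positivity)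
      _ = κ ^ 8 * ((P₃ * e) * R ^ 13) := by ring
      _ ≤ _ := by
          refine mul_le_mul_of_nonneg_left (mul_le_mul_of_nonneg_left hh13 (by positivity)) (by positivity)
  have hR10 : 1 ≤ R ^ 10 := one_le_pow₀ hR
  have hX3 : 2 ≤ X := by linarith
  set T : ℕ := ⌊X⌋₊ with hT
  have hTX : (T : ℝ) ≤ X := Nat.floor_le (by linarith)
  have hTX2 : X / 2 ≤ T := by
    have h1 : X < T + 1 := Nat.lt_floor_add_one X
    linarith
  have hTlow : κ ^ 8 * (P₃ * e * h ^ 2) / 128 ≤ T := by linarith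
  have hT1 : R ^ 10 ≤ T := by linarith
  have hT0 : (1 : ℝ) ≤ T := le_trans hR10 hT1
  -- L and L'
  have h6k : 6 / κ = 6 * k := by
    rw [div_eq_iff hκ.ne']
    linear_combination -6 * hk
  have hE1 : (0 : ℝ) < P₁ * e := by positivity
  have hE2 : (0 : ℝ) < P₂ * e := by positivity
  set L : ℕ := ⌈6 * (k * m) / (P₁ * e)⌉₊ + 1 with hL
  set L' : ℕ := ⌈8 * (b ^ 4 * m) / (P₂ * e)⌉₊ + 1 with hL'
  have hL1 : 6 * (k * m) + P₁ * e ≤ P₁ * e * (L : ℝ) := by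
    have h1 : 6 * (k * m) / (P₁ * e) ≤ ⌈6 * (k * m) / (P₁ * e)⌉₊ := Nat.le_ceil _
    rw [div_le_iff₀ hE1] at h1
    rw [hL]
    push_cast
    linarith
  have hL2 : P₁ * e * (L : ℝ) ≤ 8 * (k * m) := by
    have h1 : (⌈6 * (k * m) / (P₁ * e)⌉₊ : ℝ) < 6 * (k * m) / (P₁ * e) + 1 := Nat.ceil_lt_add_one (by positivity)
    have h2 : (L : ℝ) ≤ 6 * (k * m) / (P₁ * e) + 2 := by
      rw [hL]
      push_cast
      linarith
    calc P₁ * e * (L : ℝ) ≤ P₁ * e * (6 * (k * m) / (P₁ * e) + 2) := mul_le_mul_of_nonneg_left h2 hE1.le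
      _ = 6 * (k * m) + 2 * (P₁ * e) := by field_simp
      _ ≤ 8 * (k * m) := by
          have h3 : P₁ * e ≤ k * m := le_trans hE1m (le_mul_of_one_le_left hm0.le hk1)
          linarith
  have hb4 : 1 ≤ b ^ 4 := one_le_pow₀ hb
  have hL1' : 8 * (b ^ 4 * m) + P₂ * e ≤ P₂ * e * (L' : ℝ) := by
    have h1 : 8 * (b ^ 4 * m) / (P₂ * e) ≤ ⌈8 * (b ^ 4 * m) / (P₂ * e)⌉₊ := Nat.le_ceil _
    rw [div_le_iff₀ hE2] at h1
    rw [hL']
    push_cast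
    linarith
  have hL2' : P₂ * e * (L' : ℝ) ≤ 10 * (b ^ 4 * m) := by
    have h1 : (⌈8 * (b ^ 4 * m) / (P₂ * e)⌉₊ : ℝ) < 8 * (b ^ 4 * m) / (P₂ * e) + 1 := Nat.ceil_lt_add_one (by positivity)
    have h2 : (L' : ℝ) ≤ 8 * (b ^ 4 * m) / (P₂ * e) + 2 := by
      rw [hL']
      push_cast
      linarith
    calc P₂ * e * (L' : ℝ) ≤ P₂ * e * (8 * (b ^ 4 * m) / (P₂ * e) + 2) := mul_le_mul_of_nonneg_left h2 hE2.le
      _ = 8 * (b ^ 4 * m) + 2 * (P₂ * e) := by field_simp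
      _ ≤ 10 * (b ^ 4 * m) := by
          have h3 : P₂ * e ≤ b ^ 4 * m := le_trans hE2m (le_mul_of_one_le_left hm0.le hb4)
          linarith
  obtain ⟨q1, q2, q3, q4, q5, q6, q7, q8⟩ := ENU_core κ k a b m h P₁ P₂ P₃ P₄ e T L L' N₁ K₁ hκ hk hk1 ha hb hm0 hh0
    (by linarith) (by linarith) (by linarith) (by linarith) (by linarith) (by rw [h34R, h12R]) rel
    (by linarith) (by linarith) hL2 (by linarith) hL2' n1 n2 k1 k2
  rw [h12R] at q1 q2 q3 q4 q5 q7 q8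
  have hk9 : ∀ i ≤ 9, k ^ i ≤ k ^ 9 := fun i hi => pow_le_pow_right₀ hk1 hi
  have hX0 : (0 : ℝ) ≤ h * (p * e) := by positivity
  have hNK : (N₁ : ℝ) * K₁ ≤ 36 * (a ^ 2 * b ^ 2) := by
    calc (N₁ : ℝ) * K₁ ≤ (6 * a) * (6 * (b ^ 2 * a)) := mul_le_mul n2 k2 hK0.le (by positivity)
      _ = _ := by ring
  have hLL : ((P₁ : ℝ) * P₂ * e ^ 2) * ((L : ℝ) * L') ≤ 80 * k * b ^ 4 * m ^ 2 := by
    calc ((P₁ : ℝ) * P₂ * e ^ 2) * ((L : ℝ) * L') = (P₁ * e * L) * (P₂ * e * L') := by ring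
      _ ≤ (8 * (k * m)) * (10 * (b ^ 4 * m)) := mul_le_mul hL2 hL2' (by positivity) (by positivity)
      _ = _ := by ring
  rw [h12R] at hLL
  refine ⟨L, L', T, 130000 * k ^ 9 * (h * (p * e)), ?_, hT1, ?_, ?_, hL1', ?_, ?_⟩
  · refine ⟨?_, ?_, ?_, ?_, ?_, hb, by positivity, ?_, ?_, ?_, ?_⟩
    · exact Nat.cast_pos.mp hN0
    · exact Nat.cast_pos.mp hK0
    · rw [hL]; omega
    · rw [hL']; omega
    · exact_mod_cast hT0
    · -- s1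
      have h1 : 6480 * k ^ 6 ≤ 6480 * k ^ 9 := by linarith [hk9 6 (by norm_num)]
      have h2 : P₂ * (32 * ((T : ℝ) * e * P₄) * L' / (N₁ : ℝ) ^ 3) ≤ 6480 * k ^ 9 * (h * (p * e) * b ^ 5) :=
        le_trans q1 (mul_le_mul_of_nonneg_right h1 (by positivity))
      have h3 : P₂ * ((K₁ : ℝ) ^ 3 / L) ≤ 36 * k ^ 9 * (h * (p * e) * b ^ 5) :=
        le_trans q2 (mul_le_mul_of_nonneg_right (by linarith [hkp 9]) (by positivity))
      have h4 : 0 ≤ k ^ 9 * (h * (p * e) * b ^ 5) := by positivity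
      calc P₂ * (32 * ((T : ℝ) * e * P₄) * L' / (N₁ : ℝ) ^ 3 + (K₁ : ℝ) ^ 3 / L)
          = P₂ * (32 * ((T : ℝ) * e * P₄) * L' / (N₁ : ℝ) ^ 3) + P₂ * ((K₁ : ℝ) ^ 3 / L) := by ring
        _ ≤ 6480 * k ^ 9 * (h * (p * e) * b ^ 5) + 36 * k ^ 9 * (h * (p * e) * b ^ 5) := add_le_add h2 h3
        _ ≤ 130000 * k ^ 9 * (h * (p * e)) * b ^ 5 := by linarith
    · -- s2
      have h1 : 5184 * k ^ 7 ≤ 5184 * k ^ 9 := by linarith [hk9 7 (by norm_num)]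
      have h2 : P₁ * (32 * ((T : ℝ) * e * P₄) * L / (N₁ : ℝ) ^ 3) ≤ 5184 * k ^ 9 * (h * (p * e) * b) :=
        le_trans q3 (mul_le_mul_of_nonneg_right h1 (by positivity))
      have h3 : P₂ * (2 * (N₁ : ℝ) ^ 2 * K₁ / L) ≤ 72 * k ^ 9 * (h * (p * e) * b) :=
        le_trans q4 (mul_le_mul_of_nonneg_right (by linarith [hkp 9]) (by positivity))
      have h3' : P₁ * ((K₁ : ℝ) ^ 3 / L') ≤ 27 * k ^ 9 * (h * (p * e) * b) :=
        le_trans q5 (mul_le_mul_of_nonneg_right (by linarith [hkp 9]) (by positivity))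
      have h4 : 0 ≤ k ^ 9 * (h * (p * e) * b) := by positivity
      rw [mul_add]
      linarith
    · -- s3
      have h1 : P₁ * (32 * ((T : ℝ) * e * P₄) * L / (N₁ : ℝ) ^ 3 + (K₁ : ℝ) ^ 3 / L') +
          P₂ * (2 * (N₁ : ℝ) ^ 2 * K₁ / L) ≤ 5283 * k ^ 7 * (h * (p * e) * b) := by
        have h2 : 99 * (h * (p * e) * b) ≤ 99 * k ^ 7 * (h * (p * e) * b) :=
          mul_le_mul_of_nonneg_right (by linarith [hkp 7]) (by positivity)
        rw [mul_add]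
        linarith
      have h6 : 4 * (N₁ : ℝ) / K₁ * (P₁ * (32 * ((T : ℝ) * e * P₄) * L / (N₁ : ℝ) ^ 3 + (K₁ : ℝ) ^ 3 / L') +
          P₂ * (2 * (N₁ : ℝ) ^ 2 * K₁ / L)) ≤ 126792 * k ^ 9 * (h * (p * e) / b) := by
        calc _ ≤ 24 * k ^ 2 / b ^ 2 * (5283 * k ^ 7 * (h * (p * e) * b)) :=
              mul_le_mul q6 h1 (by positivity) (by positivity)
          _ = _ := by field_simp; ring
      have h7 : P₂ * (5 * (N₁ : ℝ) ^ 3 / L) ≤ 180 * k ^ 9 * (h * (p * e) / b) :=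
        le_trans q7 (mul_le_mul_of_nonneg_right (by linarith [hkp 9]) (by positivity))
      have h8 : 130000 * k ^ 9 * (h * (p * e)) / b = 130000 * k ^ 9 * (h * (p * e) / b) := by ring
      have h4 : 0 ≤ k ^ 9 * (h * (p * e) / b) := by positivity
      rw [h8]
      linarith
    · -- s4
      have h7 : P₁ * ((N₁ : ℝ) ^ 3 / L') ≤ 27 * k ^ 9 * (h * (p * e) / b ^ 5) :=
        le_trans q8 (mul_le_mul_of_nonneg_right (by linarith [hkp 9]) (by positivity))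
      have h8 : 130000 * k ^ 9 * (h * (p * e)) / b ^ 5 = 130000 * k ^ 9 * (h * (p * e) / b ^ 5) := by ring
      have h4 : 0 ≤ k ^ 9 * (h * (p * e) / b ^ 5) := by positivity
      rw [h8]
      linarith
  · -- 64 T Y
    have h1 : (T : ℝ) * (64 * w ^ 2) ≤ P₃ * ((N₁ : ℝ) ^ 3 * K₁ * e) := by
      rw [← le_div_iff₀ (by positivity)]
      exact hTX
    linarith
  · rw [h6k]
    linarith
  · -- (i)
    have hT0' : (0 : ℝ) < T := by linarith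
    have key : ((p : ℝ) * e ^ 2) * ((N₁ : ℝ) * K₁ * (L * L')) ≤ (10 ^ 6 * k ^ 9) * (b ^ 4 * w ^ 4 / (P₃ * e)) * T := by
      have h3 : 36 * (a ^ 2 * b ^ 2) * (80 * k * b ^ 4 * m ^ 2) =
          368640 * k ^ 9 * (b ^ 4 * w ^ 4 / (P₃ * e)) * (κ ^ 8 * (P₃ * e * h ^ 2) / 128) := by
        have h4 : b ^ 4 * w ^ 4 / (P₃ * e) * (P₃ * e * h ^ 2) = b ^ 4 * w ^ 2 * (h ^ 2 * w ^ 2) := by
          field_simp
        have h5 : 368640 * k ^ 9 * (b ^ 4 * w ^ 4 / (P₃ * e)) * (κ ^ 8 * (P₃ * e * h ^ 2) / 128) =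
            2880 * k * (k ^ 8 * κ ^ 8) * (b ^ 4 * w ^ 4 / (P₃ * e) * (P₃ * e * h ^ 2)) := by ring
        rw [h5, h4, hkk 8, hh2, hm]
        ring
      calc ((p : ℝ) * e ^ 2) * ((N₁ : ℝ) * K₁ * (L * L')) = ((N₁ : ℝ) * K₁) * (((p : ℝ) * e ^ 2) * ((L : ℝ) * L')) := by ring
        _ ≤ 36 * (a ^ 2 * b ^ 2) * (80 * k * b ^ 4 * m ^ 2) := mul_le_mul hNK hLL (by positivity) (by positivity)
        _ = 368640 * k ^ 9 * (b ^ 4 * w ^ 4 / (P₃ * e)) * (κ ^ 8 * (P₃ * e * h ^ 2) / 128) := h3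
        _ ≤ 368640 * k ^ 9 * (b ^ 4 * w ^ 4 / (P₃ * e)) * T := mul_le_mul_of_nonneg_left hTlow (by positivity)
        _ ≤ _ := by
            refine mul_le_mul_of_nonneg_right (mul_le_mul_of_nonneg_right ?_ (by positivity)) (by positivity)
            linarith [hkp 9]
    have h6 : (N₁ : ℝ) * K₁ * (L * L' / T) = (((p : ℝ) * e ^ 2) * ((N₁ : ℝ) * K₁ * (L * L'))) / (((p : ℝ) * e ^ 2) * T) := by
      field_simp
    have h7 : b ^ 4 * w ^ 4 / (p * P₃ * (e : ℝ) ^ 3) = (b ^ 4 * w ^ 4 / (P₃ * e)) / ((p : ℝ) * e ^ 2) := by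
      have e1 : (0 : ℝ) < e := by linarith
      have e2 : (0 : ℝ) < p := by linarith
      have e3 : (0 : ℝ) < P₃ := by linarith
      field_simp
    rw [h6, h7, div_le_iff₀ (by positivity)]
    calc _ ≤ _ := key
      _ = _ := by field_simp
  · -- the error
    have hp0 : (0 : ℝ) < p := by linarith
    have hP₄0 : (0 : ℝ) < P₄ := by linarith
    have hP₃0 : (0 : ℝ) < P₃ := by linarith
    have he0 : (0 : ℝ) < e := by linarith
    have hT0' : (0 : ℝ) < T := by linarith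
    obtain ⟨u, hu⟩ : ∃ u : ℝ, u = (p : ℝ) ^ (1 / 4 : ℝ) := ⟨_, rfl⟩
    obtain ⟨v, hv⟩ : ∃ v : ℝ, v = (P₄ : ℝ) ^ (1 / 4 : ℝ) := ⟨_, rfl⟩
    obtain ⟨t, ht⟩ : ∃ t : ℝ, t = (T : ℝ) ^ (1 / 4 : ℝ) := ⟨_, rfl⟩
    have q4 : ∀ x : ℝ, 0 ≤ x → (x ^ (1 / 4 : ℝ)) ^ 4 = x := by
      intro x hx
      rw [← Real.rpow_natCast, ← Real.rpow_mul hx]
      norm_num
    have q3 : ∀ x : ℝ, 0 ≤ x → (x ^ (1 / 4 : ℝ)) ^ 3 = x ^ (3 / 4 : ℝ) := by
      intro x hx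
      rw [← Real.rpow_natCast, ← Real.rpow_mul hx]
      norm_num
    have hu4 : u ^ 4 = p := by rw [hu]; exact q4 _ hp0.le
    have hv4 : v ^ 4 = P₄ := by rw [hv]; exact q4 _ hP₄0.le
    have ht4 : t ^ 4 = T := by rw [ht]; exact q4 _ hT0'.le
    have hu1 : 1 ≤ u := by rw [hu]; exact Real.one_le_rpow hpR1 (by norm_num)
    have hv1 : 1 ≤ v := by rw [hv]; exact Real.one_le_rpow hP₄ (by norm_num)
    have ht0 : 0 < t := by rw [ht]; positivity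
    have hT54 : (T : ℝ) ^ (5 / 4 : ℝ) = T * t := by
      rw [ht]
      nth_rewrite 2 [← Real.rpow_one (T : ℝ)]
      rw [← Real.rpow_add hT0']
      norm_num
    obtain ⟨D, hD⟩ : ∃ D : ℝ, D = 130000 ^ 2 * 128 * k ^ 26 := ⟨_, rfl⟩
    have hD1 : 1 ≤ D := by
      rw [hD]
      linarith [hkp 26]
    have hρ2 : (130000 * k ^ 9 * (h * (p * e))) ^ 2 ≤ D * e * (p * P₄ * T) := by
      have h1 : P₃ * e * h ^ 2 ≤ 128 * k ^ 8 * T := by
        calc P₃ * e * h ^ 2 = 128 * k ^ 8 * (κ ^ 8 * (P₃ * e * h ^ 2) / 128) := by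
              have := hkk 8
              linear_combination (-(P₃ * e * h ^ 2)) * this
          _ ≤ _ := mul_le_mul_of_nonneg_left hTlow (by positivity)
      calc (130000 * k ^ 9 * (h * (p * e))) ^ 2 = 130000 ^ 2 * k ^ 18 * e * (p * p) * e * h ^ 2 := by ring
        _ = 130000 ^ 2 * k ^ 18 * e * (p * (P₃ * P₄)) * e * h ^ 2 := by rw [h34R]
        _ = 130000 ^ 2 * k ^ 18 * e * (p * P₄) * (P₃ * e * h ^ 2) := by ring
        _ ≤ 130000 ^ 2 * k ^ 18 * e * (p * P₄) * (128 * k ^ 8 * T) := mul_le_mul_of_nonneg_left h1 (by positivity)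
        _ = _ := by rw [hD]; ring
    have hr : (130000 * k ^ 9 * (h * (p * e))) ^ (3 / 2 : ℝ) ≤ D * e * (u ^ 3 * v ^ 3 * t ^ 3) := by
      have hρ0 : 0 ≤ 130000 * k ^ 9 * (h * (p * e)) := by positivity
      have h1 : (130000 * k ^ 9 * (h * (p * e))) ^ (3 / 2 : ℝ) = ((130000 * k ^ 9 * (h * (p * e))) ^ 2) ^ (3 / 4 : ℝ) := by
        rw [← Real.rpow_natCast (130000 * k ^ 9 * (h * (p * e))), ← Real.rpow_mul hρ0]
        norm_num
      rw [h1]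
      have h2 : 1 ≤ D * e := one_le_mul_of_one_le_of_one_le hD1 heR1
      have h3 : (p * P₄ * T : ℝ) ^ (3 / 4 : ℝ) = u ^ 3 * v ^ 3 * t ^ 3 := by
        rw [Real.mul_rpow (by positivity) (by positivity), Real.mul_rpow (by positivity) (by positivity),
          hu, hv, ht, q3 _ hp0.le, q3 _ hP₄0.le, q3 _ hT0'.le]
      calc ((130000 * k ^ 9 * (h * (p * e))) ^ 2) ^ (3 / 4 : ℝ) ≤ (D * e * (p * P₄ * T)) ^ (3 / 4 : ℝ) :=
            Real.rpow_le_rpow (by positivity) hρ2 (by norm_num)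
        _ = (D * e) ^ (3 / 4 : ℝ) * (p * P₄ * T : ℝ) ^ (3 / 4 : ℝ) := Real.mul_rpow (by positivity) (by positivity)
        _ = (D * e) ^ (3 / 4 : ℝ) * (u ^ 3 * v ^ 3 * t ^ 3) := by rw [h3]
        _ ≤ (D * e) * (u ^ 3 * v ^ 3 * t ^ 3) := by
            refine mul_le_mul_of_nonneg_right ?_ (by positivity)
            calc (D * e) ^ (3 / 4 : ℝ) ≤ (D * e) ^ (1 : ℝ) := Real.rpow_le_rpow_of_exponent_le h2 (by norm_num)
              _ = D * e := Real.rpow_one _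
    have hs : √((L : ℝ) * L') ≤ 9 * k * b ^ 2 * m / (e * u ^ 2) := by
      rw [Real.sqrt_le_left (by positivity)]
      have h4 : (9 * k * b ^ 2 * m / (e * u ^ 2)) ^ 2 = 81 * k ^ 2 * b ^ 4 * m ^ 2 / (p * e ^ 2) := by
        rw [← hu4]
        field_simp
        ring
      rw [h4, le_div_iff₀ (by positivity)]
      calc (L : ℝ) * L' * (p * e ^ 2) = (p * e ^ 2) * ((L : ℝ) * L') := by ring
        _ ≤ 80 * k * b ^ 4 * m ^ 2 := hLL
        _ ≤ 81 * k ^ 2 * b ^ 4 * m ^ 2 := by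
            refine mul_le_mul_of_nonneg_right (mul_le_mul_of_nonneg_right ?_ (by positivity)) (by positivity)
            have h5 : k ≤ k ^ 2 := le_self_pow₀ hk1 (by norm_num)
            linarith
    have hM : (N₁ : ℝ) * K₁ / P₄ ≤ 36 * (a ^ 2 * b ^ 2) / v ^ 4 := by
      rw [hv4]
      exact div_le_div_of_nonneg_right hNK hP₄0.le
    have hTM : (T : ℝ) ≤ 81 / 4 * k ^ 4 * e * ((N₁ : ℝ) * K₁ / P₄) * (u ^ 4 * c ^ 2) := by
      have h1 : κ ^ 4 * (a ^ 2 * b ^ 2) ≤ (N₁ : ℝ) * K₁ := by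
        calc κ ^ 4 * (a ^ 2 * b ^ 2) = (κ ^ 2 * a) * (κ ^ 2 * (b ^ 2 * a)) := by ring
          _ ≤ _ := mul_le_mul n1 k1 (by positivity) hN0.le
      have h2 : h ^ 2 = c ^ 2 * (a ^ 2 * b ^ 2) := by
        rw [hh, hc]; field_simp
      have h3 : P₃ * e * h ^ 2 = e * ((κ ^ 4 * (a ^ 2 * b ^ 2)) / P₄) * (k ^ 4 * (p * c ^ 2)) := by
        rw [h2, ← h34R]
        have := hkk 4
        field_simp
        linear_combination (-1 : ℝ) * this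
      calc (T : ℝ) ≤ 81 / 4 * (P₃ * e * h ^ 2) := le_trans hTX hX2
        _ = 81 / 4 * (e * ((κ ^ 4 * (a ^ 2 * b ^ 2)) / P₄) * (k ^ 4 * (p * c ^ 2))) := by rw [h3]
        _ ≤ 81 / 4 * (e * (((N₁ : ℝ) * K₁) / P₄) * (k ^ 4 * (p * c ^ 2))) := by
            refine mul_le_mul_of_nonneg_left (mul_le_mul_of_nonneg_right (mul_le_mul_of_nonneg_left
              (div_le_div_of_nonneg_right h1 hP₄0.le) he0.le) (by positivity)) (by norm_num)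
        _ = _ := by rw [hu4]; ring
    have hfin := ENU_err k e b m a c w u v t T ((N₁ : ℝ) * K₁ / P₄) D ((130000 * k ^ 9 * (h * (p * e))) ^ (3 / 2 : ℝ))
      (√((L : ℝ) * L')) hk1 heR1 hD1 hb ha hc0 hw hu1 hv1 ht0 ht4 hm hac (by positivity) hM hTM (by positivity) hr
      hs
    have e1 : (T : ℝ) ^ (5 / 4 : ℝ) + N₁ * K₁ * (T : ℝ) ^ (1 / 4 : ℝ) / P₄ = T * t + (N₁ : ℝ) * K₁ / P₄ * t := by
      rw [hT54, ← ht]
      ring
    rw [e1, ← hu]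
    refine le_trans hfin ?_
    rw [hu4]
    have h9 : 14000 * D * k ^ 5 * e ≤ 10 ^ 17 * k ^ 31 * (e : ℝ) := by
      have h10 : (0 : ℝ) ≤ k ^ 31 * e := by positivity
      calc 14000 * D * k ^ 5 * e = (14000 * (130000 ^ 2 * 128)) * (k ^ 31 * e) := by rw [hD]; ring
        _ ≤ 10 ^ 17 * (k ^ 31 * e) := mul_le_mul_of_nonneg_right (by norm_num) h10
        _ = _ := by ring
    exact mul_le_mul_of_nonneg_right h9 (by positivity)

theorem ENU : ENU_stmt := by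
  intro B τ hτ
  obtain ⟨η, hη0, hη00, hη1, hη2⟩ : ∃ η : ℝ, 0 < η ∧ η ≤ 1 / 100 ∧ η ≤ 1 / 40 ∧ η * B ≤ τ / 4 := by
    refine ⟨min (1 / 100) (τ / (4 * (B + 1))), lt_min (by norm_num) (by positivity), min_le_left _ _,
      le_trans (min_le_left _ _) (by norm_num), ?_⟩
    calc min (1 / 100) (τ / (4 * (B + 1))) * B ≤ τ / (4 * (B + 1)) * B :=
          mul_le_mul_of_nonneg_right (min_le_right _ _) (Nat.cast_nonneg B)
      _ ≤ τ / 4 := by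
          rw [div_mul_eq_mul_div, div_le_div_iff₀ (by positivity) (by norm_num)]
          nlinarith
  refine ⟨η, hη0, hη00, ?_⟩
  intro κ hκ hκ1
  obtain ⟨k, hk⟩ : ∃ k : ℝ, κ * k = 1 := ⟨1 / κ, by field_simp⟩
  have hk1 : 1 ≤ k := by
    by_contra hcon
    push Not at hcon
    nlinarith
  have hC1 : (1 : ℝ) ≤ 10 ^ 6 * k ^ 9 := by
    have h1 : (1 : ℝ) ≤ k ^ 9 := one_le_pow₀ hk1
    linarith
  refine ⟨10 ^ 6 * k ^ 9, hC1, ?_⟩
  intro e he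
  have heR1 : (1 : ℝ) ≤ e := by exact_mod_cast he
  have hC2 : (1 : ℝ) ≤ 10 ^ 17 * k ^ 31 * e := by
    have h1 : (1 : ℝ) ≤ k ^ 31 := one_le_pow₀ hk1
    have h2 : (1 : ℝ) ≤ k ^ 31 * e := one_le_mul_of_one_le_of_one_le h1 heR1
    nlinarith
  refine ⟨10 ^ 17 * k ^ 31 * e, (1000 * k ^ 8 * (e : ℝ) ^ 2) ^ 20, hC2, ?_⟩
  intro N Y Y₂ hN hRg p hp hpN P₁ P₂ P₃ P₄ h12 h34 N₁ K₁ hB
  obtain ⟨hYY, hY2, hA2, hlow⟩ := hRg
  have hk81 : (1 : ℝ) ≤ k ^ 8 := one_le_pow₀ hk1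
  have he21 : (1 : ℝ) ≤ (e : ℝ) ^ 2 := one_le_pow₀ heR1
  have hM : (1 : ℝ) < 1000 * k ^ 8 * (e : ℝ) ^ 2 := by
    have h2 : (1 : ℝ) ≤ k ^ 8 * (e : ℝ) ^ 2 := one_le_mul_of_one_le_of_one_le hk81 he21
    linarith
  obtain ⟨R, hR, hRN, hR2, hRe⟩ := ENU_R N (1000 * k ^ 8 * (e : ℝ) ^ 2) hM.le hN
  have hR0 : 0 < R := by linarith
  have hR2a : 1000 * k ^ 8 ≤ R ^ 2 := by
    refine le_trans ?_ hR2
    exact le_mul_of_one_le_right (by positivity) he21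
  have heR : (e : ℝ) ≤ R := by
    have h1 : (e : ℝ) ^ 2 ≤ R ^ 2 := by
      refine le_trans ?_ hR2
      exact le_mul_of_one_le_left (by positivity) (by linarith)
    exact (pow_le_pow_iff_left₀ (by positivity) hR0.le (by norm_num)).mp h1
  have hN1 : 1 < N := lt_of_lt_of_le (one_lt_pow₀ hM (by norm_num)) hN
  have hN0 : 0 < N := by linarith
  have hηR : N ^ η ≤ R := by
    rw [hRe]
    exact Real.rpow_le_rpow_of_exponent_le hN1.le hη1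
  have hpR : (p : ℝ) ≤ R := le_trans hpN hηR
  -- the product
  have hprod : R ^ 39 ≤ Y * Y₂ := by
    have h1 : N ^ (1 - η) * N ^ η = N := by
      rw [← Real.rpow_add hN0]
      simp
    have h2 : R ^ 39 * R ≤ N ^ (1 - η) * R := by
      calc R ^ 39 * R = N := by rw [← hRN]; ring
        _ = N ^ (1 - η) * N ^ η := h1.symm
        _ ≤ N ^ (1 - η) * R := mul_le_mul_of_nonneg_left hηR (by positivity)
    exact le_trans (le_of_mul_le_mul_right h2 hR0) hlow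
  have hprod0 : 0 < Y * Y₂ := lt_of_lt_of_le (by positivity) hprod
  have hY0 : 0 < Y := by
    rcases lt_trichotomy Y 0 with h1 | h1 | h1
    · exfalso
      have h5 : 1 < N ^ η := Real.one_lt_rpow hN1 hη0
      have h6 : N ^ η * Y < 1 * Y := mul_lt_mul_of_neg_right h5 h1
      linarith
    · rw [h1, zero_mul] at hprod0
      exact absurd hprod0 (lt_irrefl 0)
    · exact h1
  have hY20 : 0 < Y₂ := lt_of_lt_of_le hY0 hYY
  have hYR : R ^ 19 ≤ Y := by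
    have h1 : R * (R ^ 19) ^ 2 ≤ R * Y ^ 2 := by
      calc R * (R ^ 19) ^ 2 = R ^ 39 := by ring
        _ ≤ Y * Y₂ := hprod
        _ ≤ Y * (R * Y) := by
            refine mul_le_mul_of_nonneg_left ?_ hY0.le
            exact le_trans hY2 (mul_le_mul_of_nonneg_right hηR hY0.le)
        _ = R * Y ^ 2 := by ring
    exact (pow_le_pow_iff_left₀ (by positivity) hY0.le (by norm_num)).mp (le_of_mul_le_mul_left h1 hR0)
  -- square roots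
  obtain ⟨w, hw⟩ : ∃ w : ℝ, w = √Y := ⟨_, rfl⟩
  obtain ⟨q, hq⟩ : ∃ q : ℝ, q = √Y₂ := ⟨_, rfl⟩
  obtain ⟨f, hf⟩ : ∃ f : ℝ, f = √N := ⟨_, rfl⟩
  have hw0 : 0 < w := by rw [hw]; exact Real.sqrt_pos.mpr hY0
  have hq0 : 0 < q := by rw [hq]; exact Real.sqrt_pos.mpr hY20
  have hf0 : 0 < f := by rw [hf]; exact Real.sqrt_pos.mpr hN0
  have hww : w ^ 2 = Y := by rw [hw]; exact Real.sq_sqrt hY0.le
  have hqq : q ^ 2 = Y₂ := by rw [hq]; exact Real.sq_sqrt hY20.le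
  have hff : f ^ 2 = N := by rw [hf]; exact Real.sq_sqrt hN0.le
  have hwq : w ≤ q := by rw [hw, hq]; exact Real.sqrt_le_sqrt hYY
  obtain ⟨b, hb⟩ : ∃ b : ℝ, b = √(q / w) := ⟨_, rfl⟩
  have hb2 : b ^ 2 = q / w := by rw [hb]; exact Real.sq_sqrt (by positivity)
  have hb1 : 1 ≤ b := by
    rw [hb, Real.one_le_sqrt, one_le_div hw0]
    exact hwq
  have hb4 : b ^ 4 = Y₂ / Y := by
    rw [← hww, ← hqq]
    calc b ^ 4 = (b ^ 2) ^ 2 := by ring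
      _ = _ := by rw [hb2]; ring
  obtain ⟨a, ha⟩ : ∃ a : ℝ, a = w ^ 2 * q / f := ⟨_, rfl⟩
  have ha0 : 0 < a := by rw [ha]; positivity
  have hsN : sN N Y Y₂ = a := by
    unfold sN
    rw [← hq, ← hf, ha, hww]
  have hsK : sK N Y Y₂ = b ^ 2 * a := by
    unfold sK
    rw [← hw, ← hf, ha, hb2, ← hqq]
    field_simp
  have hsM : sM N Y Y₂ = w * a := by
    unfold sM
    rw [← hw, ← hq, ← hf, ha, ← hww]
    ring
  have hsG : sG N Y Y₂ = b ^ 4 * (w * a) := by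
    unfold sG
    rw [← hw, ← hq, ← hf, ha, hb4, ← hww, ← hqq]
    field_simp
  have hap2 : (a / w) ^ 2 = Y * Y₂ / N := by
    rw [← hff, ← hww, ← hqq, ha]
    field_simp
  have hap : 1 ≤ R ^ 3 * (a / w) ^ 2 := by
    rw [hap2, ← mul_div_assoc, one_le_div hN0]
    calc N = R ^ 40 := hRN.symm
      _ ≤ R ^ 42 := pow_le_pow_right₀ hR (by norm_num)
      _ = R ^ 3 * R ^ 39 := by ring
      _ ≤ _ := mul_le_mul_of_nonneg_left hprod (by positivity)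
  have n1 := hB.n1
  have n2 := hB.n2
  have k1 := hB.k1
  have k2 := hB.k2
  rw [hsN] at n1 n2
  rw [hsK] at k1 k2
  obtain ⟨g1, g2, L, L', T, ρ, hWB, hT, h1, h2, h3, h4, h5⟩ := ENU_fin κ k R w a b hκ hk hk1 hR hR2a hw0 ha0 hb1
    (by rw [hww]; exact hYR) hap e p P₁ P₂ P₃ P₄ he heR hp hpR h12 h34 N₁ K₁ n1 n2 k1 k2
  have hT1 : (1 : ℝ) ≤ T := le_trans (one_le_pow₀ hR) hT
  have hbB : b ^ B ≤ (T : ℝ) ^ τ := by
    have g1 : b ≤ N ^ η := by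
      calc b = b ^ 1 := (pow_one b).symm
        _ ≤ b ^ 4 := pow_le_pow_right₀ hb1 (by norm_num)
        _ ≤ N ^ η := by rw [hb4, div_le_iff₀ hY0]; exact hY2
    calc b ^ B ≤ (N ^ η) ^ B := pow_le_pow_left₀ (by linarith) g1 B
      _ = N ^ (η * B) := by rw [Real.rpow_mul hN0.le, Real.rpow_natCast]
      _ ≤ N ^ (τ / 4) := Real.rpow_le_rpow_of_exponent_le hN1.le hη2
      _ = (R ^ 10) ^ τ := by
          rw [hRe, ← Real.rpow_natCast, ← Real.rpow_mul hN0.le, ← Real.rpow_mul hN0.le]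
          congr 1
          push_cast
          ring
      _ ≤ (T : ℝ) ^ τ := Real.rpow_le_rpow (by positivity) hT hτ.le
  have hYY4 : b ^ 4 * w ^ 4 = Y * Y₂ := by
    rw [hb4, ← hww, ← hqq]
    field_simp
  have hc3 : (a / w) ^ 3 = (Y * Y₂ / N) ^ (3 / 2 : ℝ) := by
    rw [← hap2, ← Real.rpow_natCast, ← Real.rpow_natCast, ← Real.rpow_mul (by positivity)]
    norm_num
  rw [hsM, hsG]
  refine ⟨g1, g2, L, L', T, b, ρ, hWB, hbB, ?_, h2, h3, ?_, ?_⟩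
  · rw [← hww]
    exact h1
  · rw [← hYY4]
    exact h4
  · rw [← hc3, ← hap2, ← hYY4]
    exact h5

end Pool.Agent.T6
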