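import Pool.Agent.helper8.T6.SpecC1

set_option autoImplicit false

/-!
# T6, block C, row TLO1
-/

namespace Pool.Agent.T6

open Finset Pool.Agent.T5

theorem TLO1_e1 (p a n : ℕ) (hp : p.Prime) (ha : 1 ≤ a) (h : ¬ p ∣ n) : e1 (p ^ a) n = p ^ a := by
  unfold e1
  rw [Nat.primeFactors_prime_pow (by omega) hp, Finset.filter_singleton, if_pos h,
    Finset.prod_singleton, Nat.Prime.factorization_pow hp, Finsupp.single_eq_same]

theorem TLO1_e1' (p a n : ℕ) (hp : p.Prime) (ha : 1 ≤ a) (h : p ∣ n) : e1 (p ^ a) n = 1 := by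
  unfold e1
  rw [Nat.primeFactors_prime_pow (by omega) hp, Finset.filter_singleton,
    if_neg (not_not.2 h), Finset.prod_empty]

theorem TLO1_e2 (p a n : ℕ) (hp : p.Prime) (ha : 1 ≤ a) (h : ¬ p ∣ n) : e2 (p ^ a) n = 1 := by
  unfold e2
  rw [Nat.primeFactors_prime_pow (by omega) hp, Finset.filter_singleton, if_neg h,
    Finset.prod_empty]

theorem TLO1_e2' (p a n : ℕ) (hp : p.Prime) (ha : 1 ≤ a) (h : p ∣ n) : e2 (p ^ a) n = p ^ a := by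
  unfold e2
  rw [Nat.primeFactors_prime_pow (by omega) hp, Finset.filter_singleton, if_pos h,
    Finset.prod_singleton, Nat.Prime.factorization_pow hp, Finsupp.single_eq_same]

theorem TLO1_res (x : ℤ) (q : ℕ) (hq : 0 < q) : ∃ y : ℕ, y < q ∧ (q : ℤ) ∣ x - y := by
  have hq' : (0 : ℤ) < q := by exact_mod_cast hq
  refine ⟨(x % q).toNat, ?_, ?_⟩
  · have h1 := Int.emod_lt_of_pos x hq'
    have h2 := Int.emod_nonneg x hq'.ne'
    omega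
  · have h2 := Int.emod_nonneg x hq'.ne'
    rw [Int.toNat_of_nonneg h2]
    exact Int.dvd_self_sub_emod

theorem TLO1_Pk (n k m g R m' g' R' q : ℤ) (h1 : q ∣ m - m') (h2 : q ∣ g - g') (h3 : q ∣ R - R')
    (h : q ∣ Pk n k m g R) : q ∣ Pk n k m' g' R' := by
  have e1 : m ≡ m' [ZMOD q] := (Int.modEq_iff_dvd.2 h1).symm
  have e2 : g ≡ g' [ZMOD q] := (Int.modEq_iff_dvd.2 h2).symm
  have e3 : R ≡ R' [ZMOD q] := (Int.modEq_iff_dvd.2 h3).symm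
  have e4 : Pk n k m g R ≡ Pk n k m' g' R' [ZMOD q] := by
    unfold Pk
    gcongr
  exact Int.modEq_zero_iff_dvd.1 (e4.symm.trans (Int.modEq_zero_iff_dvd.2 h))

theorem TLO1_T (hTLB : TLB_stmt) (p a : ℕ) (n k : ℤ) (hp : p.Prime) (hn : ¬ (p : ℤ) ∣ n) :
    ∃ T : Finset (ℕ × ℕ × ℕ), T.card ≤ 2 * (a + 1) * p ^ (2 * a + a / 2) ∧
      ∀ x1 x2 x3 : ℕ, x1 < p ^ a → x2 < p ^ a → x3 < p ^ a →
        (p : ℤ) ^ a ∣ Pk n k x1 x2 x3 → (x1, x2, x3) ∈ T := by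
  refine ⟨_, hTLB p a n k hp hn, fun x1 x2 x3 h1 h2 h3 h4 => Finset.mem_filter.2 ⟨?_, h4⟩⟩
  unfold cub
  rw [Finset.mem_product, Finset.mem_product, Finset.mem_range, Finset.mem_range,
    Finset.mem_range]
  exact ⟨h1, h2, h3⟩

theorem TLO1 (hTPI : TPI_stmt) (hTLB : TLB_stmt) : TLO1_stmt := by
  intro p a n k hp ha hn hk hco
  have hq : 0 < p ^ a := pow_pos hp.pos a
  by_cases hpn : p ∣ n
  · have hpk : ¬ p ∣ k := by
      intro h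
      have h1 := Nat.dvd_gcd hpn h
      rw [hco] at h1
      exact hp.one_lt.ne' (Nat.dvd_one.1 h1)
    have hpk' : ¬ (p : ℤ) ∣ (k : ℤ) := by
      intro h
      exact hpk (by exact_mod_cast h)
    obtain ⟨T, hTc, hTm⟩ := TLO1_T hTLB p a k n hp hpk'
    refine ⟨T.image (fun x => (⟨-(x.2.1 : ℤ), (x.1 : ℤ), 0, -(x.2.2 : ℤ), 0, 0, 0⟩ : Cls)),
      Finset.card_image_le.trans hTc, ?_⟩
    intro t ht htn hdis
    obtain ⟨-, h2⟩ := hTPI t ht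
    have hn' : t.1.1 = n := by rw [htn]
    have hk' : t.1.2 = k := by rw [htn]
    rw [hn', hk'] at h2
    have hdv : (p : ℤ) ^ a ∣ Pk k n t.2.2.1 (-t.2.1) (-RR' t) := by
      rw [← h2]
      exact Dvd.dvd.mul_left hdis _
    obtain ⟨x1, hx1, hx1'⟩ := TLO1_res t.2.2.1 (p ^ a) hq
    obtain ⟨x2, hx2, hx2'⟩ := TLO1_res (-t.2.1) (p ^ a) hq
    obtain ⟨x3, hx3, hx3'⟩ := TLO1_res (-RR' t) (p ^ a) hq
    refine ⟨⟨-(x2 : ℤ), x1, 0, -(x3 : ℤ), 0, 0, 0⟩, ?_, ?_⟩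
    · refine Finset.mem_image.2 ⟨(x1, x2, x3), hTm x1 x2 x3 hx1 hx2 hx3 ?_, rfl⟩
      rw [Nat.cast_pow] at hx1' hx2' hx3'
      exact TLO1_Pk _ _ _ _ _ _ _ _ _ hx1' hx2' hx3' hdv
    · refine ⟨?_, ?_, ?_, ?_, ?_⟩
      · rw [one_mul]
        have e : t.2.1 - -(x2 : ℤ) = -(-t.2.1 - x2) := by ring
        change ((p ^ a : ℕ) : ℤ) ∣ t.2.1 - -(x2 : ℤ)
        rw [e]
        exact (dvd_neg).2 hx2'
      · rw [one_mul]
        exact hx1'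
      · rw [hn', TLO1_e1' p a n hp ha hpn]
        simp
      · rw [hn', TLO1_e2' p a n hp ha hpn]
        have e : RR' t - -(x3 : ℤ) = -(-RR' t - x3) := by ring
        change ((p ^ a : ℕ) : ℤ) ∣ RR' t - -(x3 : ℤ)
        rw [e]
        exact (dvd_neg).2 hx3'
      · simp
  · have hpn' : ¬ (p : ℤ) ∣ (n : ℤ) := by
      intro h
      exact hpn (by exact_mod_cast h)
    obtain ⟨T, hTc, hTm⟩ := TLO1_T hTLB p a n k hp hpn'
    refine ⟨T.image (fun x => (⟨(x.1 : ℤ), (x.2.1 : ℤ), (x.2.2 : ℤ), 0, 0, 0, 0⟩ : Cls)),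
      Finset.card_image_le.trans hTc, ?_⟩
    intro t ht htn hdis
    obtain ⟨h2, -⟩ := hTPI t ht
    have hn' : t.1.1 = n := by rw [htn]
    have hk' : t.1.2 = k := by rw [htn]
    rw [hn', hk'] at h2
    have hdv : (p : ℤ) ^ a ∣ Pk n k t.2.1 t.2.2.1 (RR t) := by
      rw [← h2]
      exact Dvd.dvd.mul_left hdis _
    obtain ⟨x1, hx1, hx1'⟩ := TLO1_res t.2.1 (p ^ a) hq
    obtain ⟨x2, hx2, hx2'⟩ := TLO1_res t.2.2.1 (p ^ a) hq
    obtain ⟨x3, hx3, hx3'⟩ := TLO1_res (RR t) (p ^ a) hq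
    refine ⟨⟨x1, x2, x3, 0, 0, 0, 0⟩, ?_, ?_⟩
    · refine Finset.mem_image.2 ⟨(x1, x2, x3), hTm x1 x2 x3 hx1 hx2 hx3 ?_, rfl⟩
      rw [Nat.cast_pow] at hx1' hx2' hx3'
      exact TLO1_Pk _ _ _ _ _ _ _ _ _ hx1' hx2' hx3' hdv
    · refine ⟨?_, ?_, ?_, ?_, ?_⟩
      · rw [one_mul]
        exact hx1'
      · rw [one_mul]
        exact hx2'
      · rw [hn', TLO1_e1 p a n hp ha hpn]
        exact hx3'
      · rw [hn', TLO1_e2 p a n hp ha hpn]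
        simp
      · simp

end Pool.Agent.T6
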