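import Pool.Agent.helper82.T6.SpecL

set_option autoImplicit false

/-!
# T6, row C4: vectors which are not primitive at `d`
-/

namespace Pool.Agent.T6

open Finset Pool.Agent.helper3.FT

theorem C4_RV (p : ℤ) (v : V4) : RV (p • v) = p ^ 6 * RV v := by
  obtain ⟨a, b, c, d⟩ := v
  change Rf (p * a) (p * b) (p * c) (p * d) = p ^ 6 * Rf a b c d
  unfold Rf
  ring

/-- the fourth root of `p / 2` -/
noncomputable def C4_a (p : ℕ) : ℝ := √(√((p : ℝ) / 2))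

theorem C4_a4 (p : ℕ) : C4_a p ^ 4 = (p : ℝ) / 2 := by
  have h0 : (0 : ℝ) ≤ (p : ℝ) / 2 := by positivity
  unfold C4_a
  calc √(√((p : ℝ) / 2)) ^ 4 = (√(√((p : ℝ) / 2)) ^ 2) ^ 2 := by ring
    _ = (√((p : ℝ) / 2)) ^ 2 := by rw [Real.sq_sqrt (Real.sqrt_nonneg _)]
    _ = (p : ℝ) / 2 := Real.sq_sqrt h0

theorem C4_a1 (p : ℕ) (hp : 2 ≤ p) : 1 ≤ C4_a p := by
  unfold C4_a
  have h2 : (1 : ℝ) ≤ (p : ℝ) / 2 := by
    have : (2 : ℝ) ≤ p := by exact_mod_cast hp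
    linarith
  rw [Real.one_le_sqrt, Real.one_le_sqrt]
  exact h2

/-- division by `p` -/
theorem C4_div (hN1 : N1_stmt) (hN2 : N2_stmt) (hN5 : N5_stmt) (hVVP : VVP_stmt) (b : ℝ) (y u : ℕ)
    (s : ℝ) (hb : 1 ≤ b) (hy : 5 ≤ y) (hs : 1 ≤ s) (x : ℕ × ℕ) (hx : x ∈ SU b y u s) (p : ℕ)
    (hp : p.Prime) (hpd : p ∣ x.1)
    (hpv : (p : ℤ) ∣ (vv b x.1 x.2).1 ∧ (p : ℤ) ∣ (vv b x.1 x.2).2.1 ∧
      (p : ℤ) ∣ (vv b x.1 x.2).2.2.1 ∧ (p : ℤ) ∣ (vv b x.1 x.2).2.2.2) :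
    ((x.1 / p, x.2 % (x.1 / p)) : ℕ × ℕ) ∈ SU b y (Nat.log 2 (x.1 / p)) (s * C4_a p) := by
  classical
  obtain ⟨d, r⟩ := x
  obtain ⟨hv1, hv2, hv3, hv4, hv5, -, -⟩ := hVVP b y u s hb hy hs (d, r) hx
  simp only at hpd hpv hv1 hv2 hv3 hv4 hv5 ⊢
  rw [SU, Finset.mem_filter, PR, Finset.mem_filter, Finset.mem_product] at hx
  obtain ⟨⟨⟨hd, -⟩, hrd, hcop, hrgh⟩, -, hlam⟩ := hx
  simp only at hd hrd hcop hrgh hlam
  obtain ⟨hd1, hd2⟩ := Finset.mem_Ico.1 hd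
  obtain ⟨d₁, rfl⟩ := hpd
  have hp0 : 0 < p := hp.pos
  have hd₁ : p * d₁ / p = d₁ := Nat.mul_div_cancel_left _ hp0
  rw [hd₁]
  have hdpos : 0 < p * d₁ := lt_of_lt_of_le (by positivity) hd1
  have hd₁0 : 0 < d₁ := Nat.pos_of_mul_pos_left hdpos |> fun h => by
    rcases Nat.eq_zero_or_pos d₁ with h0 | h0
    · rw [h0, mul_zero] at hdpos
      exact absurd hdpos (lt_irrefl 0)
    · exact h0
  set v : V4 := vv b (p * d₁) r with hv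
  obtain ⟨⟨a1, h1⟩, ⟨a2, h2⟩, ⟨a3, h3⟩, ⟨a4, h4⟩⟩ := hpv
  have hvv : v = (p : ℤ) • ((a1, a2, a3, a4) : V4) := by
    have e : v = (v.1, v.2.1, v.2.2.1, v.2.2.2) := rfl
    rw [e, h1, h2, h3, h4]
    rfl
  set v₁ : V4 := (a1, a2, a3, a4) with hv₁
  have hv₁0 : v₁ ≠ 0 := by
    intro h
    rw [h, smul_zero] at hvv
    exact hv5 hvv
  obtain ⟨-, -, -, -, -, hN26, hN27⟩ := hN2
  have hG : InG d₁ r v₁ := by
    rw [hvv] at hv1
    exact (hN27 p d₁ r v₁ hp.one_lt.le).1 hv1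
  obtain ⟨hn0, -, -, hnk, -, -⟩ := hN1 b hb v₁ 0
  have hnv : nrm b v = (p : ℝ) * nrm b v₁ := by
    rw [hvv, hnk]
    have : |((p : ℤ) : ℝ)| = (p : ℝ) := by
      rw [Int.cast_natCast]
      exact abs_of_nonneg (Nat.cast_nonneg p)
    rw [this]
  have hle : lamb b d₁ r ≤ nrm b v₁ := by
    unfold lamb
    refine csInf_le ⟨0, ?_⟩ ⟨v₁, hv₁0, hG, rfl⟩
    rintro z ⟨w, -, -, rfl⟩
    exact (hN1 b hb w 0).1
  obtain ⟨-, -, hN53, hN54⟩ := hN5 b hb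
  have hp' : (0 : ℝ) < p := by exact_mod_cast hp0
  have hge : nrm b v₁ ≤ lamb b d₁ r := by
    have h5 := hN53 p d₁ r hp.one_lt.le hd₁0
    rw [← hv2, hnv] at h5
    exact le_of_mul_le_mul_left h5 hp'
  have heq : nrm b v₁ = lamb b d₁ r := le_antisymm hge hle
  have hmod : r ≡ r % d₁ [MOD d₁] := (Nat.mod_modEq r d₁).symm
  have hlam1 : lamb b d₁ r = lamb b d₁ (r % d₁) := hN54 d₁ r (r % d₁) hd₁0 hmod
  have hRV : RV v₁ ≠ 0 := by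
    intro h
    apply hv3
    rw [hvv, C4_RV, h, mul_zero]
  have hGd : Gd b d₁ (r % d₁) :=
    ⟨v₁, hN26 d₁ r (r % d₁) v₁ hmod hG, by rw [heq, hlam1], hRV⟩
  have hw1 : 2 ^ Nat.log 2 d₁ ≤ d₁ := Nat.pow_log_le_self 2 hd₁0.ne'
  have hw2 : d₁ < 2 ^ (Nat.log 2 d₁ + 1) := Nat.lt_pow_succ_log_self (by norm_num) d₁
  have hr1 : r % d₁ < d₁ := Nat.mod_lt _ hd₁0
  rw [SU, Finset.mem_filter, PR, Finset.mem_filter, Finset.mem_product]
  refine ⟨⟨⟨Finset.mem_Ico.2 ⟨hw1, hw2⟩, Finset.mem_range.2 (hr1.trans hw2)⟩, hr1, ?_, ?_⟩, hGd, ?_⟩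
  · have h5 : Nat.Coprime r d₁ := Nat.Coprime.coprime_dvd_right (Dvd.intro_left p rfl) hcop
    change Nat.gcd (r % d₁) d₁ = 1
    rw [(Nat.mod_modEq r d₁).gcd_eq]
    exact h5
  · intro q hq hqd
    exact hrgh q hq (Dvd.dvd.mul_left hqd p)
  · change lamb b d₁ (r % d₁) * (s * C4_a p) ^ 2 ≤ √(2 ^ Nat.log 2 d₁)
    rw [← hlam1, ← heq]
    have hL : (p : ℝ) * nrm b v₁ * s ^ 2 ≤ √(2 ^ u) := by
      rw [← hnv, hv2]
      exact hlam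
    have hs0 : (0 : ℝ) < s := by linarith
    have hL0 : 0 ≤ (p : ℝ) * nrm b v₁ * s ^ 2 := by positivity
    have hL2 : ((p : ℝ) * nrm b v₁ * s ^ 2) ^ 2 ≤ 2 ^ u := by
      have h5 := pow_le_pow_left₀ hL0 hL 2
      rwa [Real.sq_sqrt (by positivity)] at h5
    apply Real.le_sqrt_of_sq_le
    have hnat : 2 ^ u ≤ 2 * p * 2 ^ Nat.log 2 d₁ := by
      calc 2 ^ u ≤ p * d₁ := hd1
        _ ≤ p * 2 ^ (Nat.log 2 d₁ + 1) := Nat.mul_le_mul_left p hw2.le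
        _ = 2 * p * 2 ^ Nat.log 2 d₁ := by rw [pow_succ]; ring
    have hreal : (2 : ℝ) ^ u ≤ 2 * p * 2 ^ Nat.log 2 d₁ := by exact_mod_cast hnat
    have h2p : (0 : ℝ) < 2 * p := by positivity
    have h6 : (nrm b v₁ * (s * C4_a p) ^ 2) ^ 2 * (2 * p) =
        ((p : ℝ) * nrm b v₁ * s ^ 2) ^ 2 := by
      have h7 : (nrm b v₁ * (s * C4_a p) ^ 2) ^ 2 = (nrm b v₁ * s ^ 2) ^ 2 * C4_a p ^ 4 := by ring
      rw [h7, C4_a4]
      ring
    refine le_of_mul_le_mul_right ?_ h2p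
    rw [h6]
    calc ((p : ℝ) * nrm b v₁ * s ^ 2) ^ 2 ≤ 2 ^ u := hL2
      _ ≤ 2 * p * 2 ^ Nat.log 2 d₁ := hreal
      _ = 2 ^ Nat.log 2 d₁ * (2 * p) := by ring

/-- the estimate for one prime and one level -/
theorem C4_one (Φ : ℕ → ℝ) (hΦ : Pot Φ) (u w p : ℕ) (hp : 2 ≤ p) (s N : ℝ) (hs : 1 ≤ s)
    (hw1 : w + Nat.log 2 p ≤ u) (hw2 : u ≤ w + Nat.log 2 p + 1)
    (hN : N * (s * C4_a p) ^ 7 ≤ Φ w * 4 ^ w) :
    (p : ℝ) * N * s ^ 7 ≤ 16 * Φ u * 4 ^ u * ((p : ℝ) ^ 2)⁻¹ := by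
  have ha1 := C4_a1 p hp
  have ha4 := C4_a4 p
  set a := C4_a p with ha
  have ha0 : 0 < a := by linarith
  have hp0 : (0 : ℝ) < p := by
    have : (2 : ℝ) ≤ p := by exact_mod_cast hp
    linarith
  have hpa : (p : ℝ) = 2 * a ^ 4 := by rw [ha4]; ring
  have hlog1 : 2 ^ Nat.log 2 p ≤ p := Nat.pow_log_le_self 2 (by omega)
  have hlog2 : p < 2 ^ (Nat.log 2 p + 1) := Nat.lt_pow_succ_log_self (by norm_num) p
  have hΦu : 0 ≤ Φ u := by linarith [hΦ.two u]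
  have hX : Φ w ≤ 2 * a * Φ u := by
    have h1 := hΦ.gr w u (by omega)
    have h2 : (2 : ℝ) ^ (((u - w : ℕ) : ℝ) / 100) ≤ 2 * a := by
      have h3 : ((2 : ℝ) ^ (((u - w : ℕ) : ℝ) / 100)) ^ 4 ≤ (2 * a) ^ 4 := by
        rw [← Real.rpow_natCast, ← Real.rpow_mul (by norm_num)]
        calc (2 : ℝ) ^ (((u - w : ℕ) : ℝ) / 100 * ((4 : ℕ) : ℝ)) ≤ (2 : ℝ) ^ ((u - w : ℕ) : ℝ) := by
              apply Real.rpow_le_rpow_of_exponent_le (by norm_num)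
              have : (0 : ℝ) ≤ ((u - w : ℕ) : ℝ) := Nat.cast_nonneg _
              push_cast
              linarith
          _ = 2 ^ (u - w) := Real.rpow_natCast _ _
          _ ≤ 2 ^ (Nat.log 2 p + 1) := pow_le_pow_right₀ (by norm_num) (by omega)
          _ = 2 * 2 ^ (Nat.log 2 p) := by rw [pow_succ]; ring
          _ ≤ 2 * p := by
              have : ((2 : ℝ) ^ Nat.log 2 p) ≤ p := by exact_mod_cast hlog1
              linarith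
          _ = 4 * a ^ 4 := by rw [hpa]; ring
          _ ≤ (2 * a) ^ 4 := by
              have : 0 ≤ a ^ 4 := by positivity
              nlinarith
      exact (pow_le_pow_iff_left₀ (by positivity) (by positivity) (by norm_num)).1 h3
    calc Φ w ≤ (2 : ℝ) ^ (((u - w : ℕ) : ℝ) / 100) * Φ u := h1
      _ ≤ 2 * a * Φ u := mul_le_mul_of_nonneg_right h2 hΦu
  have h4w : (p : ℝ) ^ 2 * 4 ^ w ≤ 4 * 4 ^ u := by
    have h1 : 2 ^ w * p ≤ 2 ^ (u + 1) := by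
      calc 2 ^ w * p ≤ 2 ^ w * 2 ^ (Nat.log 2 p + 1) := Nat.mul_le_mul_left _ hlog2.le
        _ = 2 ^ (w + (Nat.log 2 p + 1)) := (pow_add _ _ _).symm
        _ ≤ 2 ^ (u + 1) := Nat.pow_le_pow_right (by norm_num) (by omega)
    have h2 : (2 : ℝ) ^ w * p ≤ 2 ^ (u + 1) := by exact_mod_cast h1
    have h3 := pow_le_pow_left₀ (by positivity) h2 2
    calc (p : ℝ) ^ 2 * 4 ^ w = ((2 : ℝ) ^ w * p) ^ 2 := by
          rw [mul_pow, ← pow_mul, mul_comm w 2, pow_mul]; norm_num; ring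
      _ ≤ (2 ^ (u + 1)) ^ 2 := h3
      _ = 4 * 4 ^ u := by
          rw [← pow_mul, mul_comm (u + 1) 2, pow_mul, pow_succ]; norm_num; ring
  have ha7 : 0 < a ^ 7 := by positivity
  have hp3 : (0 : ℝ) < (p : ℝ) ^ 2 := by positivity
  have hfin : ((p : ℝ) * N * s ^ 7) * ((p : ℝ) ^ 2 * a ^ 7) ≤ 16 * Φ u * 4 ^ u * a ^ 7 := by
    calc ((p : ℝ) * N * s ^ 7) * ((p : ℝ) ^ 2 * a ^ 7)
        = (p : ℝ) ^ 3 * (N * (s * a) ^ 7) := by ring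
      _ ≤ (p : ℝ) ^ 3 * (Φ w * 4 ^ w) := mul_le_mul_of_nonneg_left hN (by positivity)
      _ = p * Φ w * ((p : ℝ) ^ 2 * 4 ^ w) := by ring
      _ ≤ p * (2 * a * Φ u) * ((p : ℝ) ^ 2 * 4 ^ w) := by
          apply mul_le_mul_of_nonneg_right _ (by positivity)
          exact mul_le_mul_of_nonneg_left hX hp0.le
      _ ≤ p * (2 * a * Φ u) * (4 * 4 ^ u) := by
          apply mul_le_mul_of_nonneg_left h4w
          positivity
      _ = 16 * Φ u * 4 ^ u * a ^ 5 := by rw [hpa]; ring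
      _ ≤ 16 * Φ u * 4 ^ u * a ^ 7 := by
          apply mul_le_mul_of_nonneg_left _ (by positivity)
          exact pow_le_pow_right₀ ha1 (by norm_num)
  rw [← div_eq_mul_inv, le_div_iff₀ hp3]
  refine le_of_mul_le_mul_right ?_ ha7
  calc (p : ℝ) * N * s ^ 7 * (p : ℝ) ^ 2 * a ^ 7 = ((p : ℝ) * N * s ^ 7) * ((p : ℝ) ^ 2 * a ^ 7) := by
        ring
    _ ≤ 16 * Φ u * 4 ^ u * a ^ 7 := hfin

theorem C4 (hN1 : N1_stmt) (hN2 : N2_stmt) (hN5 : N5_stmt) (hVVP : VVP_stmt) : C4_stmt := by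
  classical
  refine ⟨32, by norm_num, ?_⟩
  intro b y u s Φ hb hy hs hΦ hIH
  have hΦu : 0 ≤ Φ u := by linarith [hΦ.two u]
  have hs0 : (0 : ℝ) < s := by linarith
  set S := (SU b y u s).filter (fun p => ¬ Pm p.1 (vv b p.1 p.2)) with hS
  let P : Finset ℕ := (Ioc y (2 ^ (u + 1))).filter Nat.Prime
  let W : ℕ → Finset ℕ := fun p =>
    (range (u + 1)).filter (fun w => w + Nat.log 2 p ≤ u ∧ u ≤ w + Nat.log 2 p + 1)
  let Q : ℕ → ℕ → Finset (ℕ × ℕ) := fun p w => (SU b y u s).filter (fun x =>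
    p ∣ x.1 ∧ ((p : ℤ) ∣ (vv b x.1 x.2).1 ∧ (p : ℤ) ∣ (vv b x.1 x.2).2.1 ∧
      (p : ℤ) ∣ (vv b x.1 x.2).2.2.1 ∧ (p : ℤ) ∣ (vv b x.1 x.2).2.2.2) ∧ Nat.log 2 (x.1 / p) = w)
  have hSUmem : ∀ x ∈ SU b y u s, 2 ^ u ≤ x.1 ∧ x.1 < 2 ^ (u + 1) ∧ x.2 < x.1 ∧ Rgh y x.1 := by
    intro x hx
    rw [SU, Finset.mem_filter, PR, Finset.mem_filter, Finset.mem_product] at hx
    obtain ⟨⟨⟨hd, -⟩, hrd, -, hrgh⟩, -⟩ := hx
    obtain ⟨hd1, hd2⟩ := Finset.mem_Ico.1 hd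
    exact ⟨hd1, hd2, hrd, hrgh⟩
  have hsub : S ⊆ P.biUnion (fun p => (W p).biUnion (fun w => Q p w)) := by
    intro x hx
    obtain ⟨hxS, hPm⟩ := Finset.mem_filter.1 hx
    obtain ⟨hd1, hd2, hrd, hrgh⟩ := hSUmem x hxS
    unfold Pm at hPm
    push Not at hPm
    obtain ⟨p, hp, hpd, hpv⟩ := hPm
    have hyp : y < p := hrgh p hp hpd
    have hp0 := hp.pos
    have hdpos : 0 < x.1 := lt_of_lt_of_le (by positivity) hd1
    obtain ⟨d₁, hd₁⟩ := hpd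
    have hdiv : x.1 / p = d₁ := by rw [hd₁]; exact Nat.mul_div_cancel_left _ hp0
    have hd₁0 : 0 < d₁ := by
      rcases Nat.eq_zero_or_pos d₁ with h0 | h0
      · rw [h0, mul_zero] at hd₁
        omega
      · exact h0
    have hw1 : 2 ^ Nat.log 2 d₁ ≤ d₁ := Nat.pow_log_le_self 2 hd₁0.ne'
    have hw2 : d₁ < 2 ^ (Nat.log 2 d₁ + 1) := Nat.lt_pow_succ_log_self (by norm_num) d₁
    have hl1 : 2 ^ Nat.log 2 p ≤ p := Nat.pow_log_le_self 2 hp0.ne'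
    have hl2 : p < 2 ^ (Nat.log 2 p + 1) := Nat.lt_pow_succ_log_self (by norm_num) p
    have h3 : Nat.log 2 d₁ + Nat.log 2 p < u + 1 := by
      apply (Nat.pow_lt_pow_iff_right (by norm_num : 1 < 2)).1
      calc 2 ^ (Nat.log 2 d₁ + Nat.log 2 p) = 2 ^ Nat.log 2 p * 2 ^ Nat.log 2 d₁ := by
            rw [pow_add, mul_comm]
        _ ≤ p * d₁ := Nat.mul_le_mul hl1 hw1
        _ = x.1 := hd₁.symm
        _ < 2 ^ (u + 1) := hd2
    have h4 : u < Nat.log 2 d₁ + Nat.log 2 p + 2 := by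
      apply (Nat.pow_lt_pow_iff_right (by norm_num : 1 < 2)).1
      calc 2 ^ u ≤ x.1 := hd1
        _ = p * d₁ := hd₁
        _ < 2 ^ (Nat.log 2 p + 1) * 2 ^ (Nat.log 2 d₁ + 1) := Nat.mul_lt_mul'' hl2 hw2
        _ = 2 ^ (Nat.log 2 d₁ + Nat.log 2 p + 2) := by rw [← pow_add]; congr 1; ring
    rw [Finset.mem_biUnion]
    refine ⟨p, Finset.mem_filter.2 ⟨Finset.mem_Ioc.2 ⟨hyp, ?_⟩, hp⟩, ?_⟩
    · exact (Nat.le_of_dvd hdpos ⟨d₁, hd₁⟩).trans hd2.le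
    · rw [Finset.mem_biUnion]
      refine ⟨Nat.log 2 d₁, Finset.mem_filter.2 ⟨Finset.mem_range.2 (by omega), by omega, by omega⟩, ?_⟩
      refine Finset.mem_filter.2 ⟨hxS, ⟨d₁, hd₁⟩, hpv, ?_⟩
      rw [hdiv]
  have hcardQ : ∀ p ∈ P, ∀ w ∈ W p, (Q p w).card ≤ (SU b y w (s * C4_a p)).card * p := by
    intro p hpP w _
    have hp : p.Prime := (Finset.mem_filter.1 hpP).2
    have hp0 := hp.pos
    rw [← Finset.card_range p, ← Finset.card_product]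
    rw [Finset.card_range]
    refine Finset.card_le_card_of_injOn
      (fun x => ((x.1 / p, x.2 % (x.1 / p)), x.2 / (x.1 / p))) ?_ ?_
    · intro x hx
      obtain ⟨hxS, hpd, hpv, hlog⟩ := Finset.mem_filter.1 hx
      obtain ⟨hd1, hd2, hrd, hrgh⟩ := hSUmem x hxS
      have h1 := C4_div hN1 hN2 hN5 hVVP b y u s hb hy hs x hxS p hp hpd hpv
      rw [hlog] at h1
      refine Finset.mem_coe.2 (Finset.mem_product.2 ⟨h1, Finset.mem_range.2 ?_⟩)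
      obtain ⟨d₁, hd₁⟩ := hpd
      have hdiv : x.1 / p = d₁ := by rw [hd₁]; exact Nat.mul_div_cancel_left _ hp0
      change x.2 / (x.1 / p) < p
      rw [hdiv]
      apply Nat.div_lt_of_lt_mul
      rw [mul_comm, ← hd₁]
      exact hrd
    · intro x hx x' hx' hxx
      obtain ⟨-, hpd, -, -⟩ := Finset.mem_filter.1 (Finset.mem_coe.1 hx)
      obtain ⟨-, hpd', -, -⟩ := Finset.mem_filter.1 (Finset.mem_coe.1 hx')
      simp only [Prod.mk.injEq] at hxx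
      obtain ⟨⟨h1, h2⟩, h3⟩ := hxx
      have h4 : x.1 = x'.1 := by
        rw [← Nat.mul_div_cancel' hpd, ← Nat.mul_div_cancel' hpd', h1]
      have h5 : x.2 = x'.2 := by
        rw [← Nat.div_add_mod x.2 (x.1 / p), ← Nat.div_add_mod x'.2 (x'.1 / p), h2, h3, h1]
      exact Prod.ext h4 h5
  have hone : ∀ p ∈ P, ∀ w ∈ W p, ((Q p w).card : ℝ) * s ^ 7 ≤
      16 * Φ u * 4 ^ u * ((p : ℝ) ^ 2)⁻¹ := by
    intro p hpP w hw
    obtain ⟨hpI, hp⟩ := Finset.mem_filter.1 hpP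
    have hyp : y < p := (Finset.mem_Ioc.1 hpI).1
    obtain ⟨-, hw1, hw2⟩ := Finset.mem_filter.1 hw
    have hlog : 1 ≤ Nat.log 2 p := Nat.log_pos (by norm_num) (by omega)
    have ha0 : 0 < C4_a p := lt_of_lt_of_le one_pos (C4_a1 p (by omega))
    have h1 := hIH w (by omega) (s * C4_a p) (by positivity)
    have h2 := C4_one Φ hΦ u w p (by omega) s _ hs hw1 hw2 h1
    refine le_trans ?_ h2
    apply mul_le_mul_of_nonneg_right _ (by positivity)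
    have h3 := hcardQ p hpP w hw
    calc ((Q p w).card : ℝ) ≤ (((SU b y w (s * C4_a p)).card * p : ℕ) : ℝ) := by exact_mod_cast h3
      _ = (p : ℝ) * ((SU b y w (s * C4_a p)).card : ℝ) := by push_cast; ring
  have hWcard : ∀ p, ((W p).card : ℝ) ≤ 2 := by
    intro p
    have h1 : W p ⊆ {u - Nat.log 2 p, u - Nat.log 2 p - 1} := by
      intro w hw
      obtain ⟨-, hw1, hw2⟩ := Finset.mem_filter.1 hw
      rw [Finset.mem_insert, Finset.mem_singleton]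
      omega
    have h2 := (Finset.card_le_card h1).trans Finset.card_le_two
    exact_mod_cast h2
  have hScard : (S.card : ℝ) ≤ ∑ p ∈ P, ∑ w ∈ W p, ((Q p w).card : ℝ) := by
    have h1 : S.card ≤ ∑ p ∈ P, ∑ w ∈ W p, (Q p w).card := by
      refine (Finset.card_le_card hsub).trans (Finset.card_biUnion_le.trans ?_)
      exact Finset.sum_le_sum fun p _ => Finset.card_biUnion_le
    exact_mod_cast h1
  have hsum : ∑ p ∈ P, ((p : ℝ) ^ 2)⁻¹ ≤ (y : ℝ)⁻¹ := by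
    have hy0 : y ≠ 0 := by omega
    have h1 : ∑ p ∈ P, ((p : ℝ) ^ 2)⁻¹ ≤ ∑ p ∈ Ioc y (max y (2 ^ (u + 1))), ((p : ℝ) ^ 2)⁻¹ := by
      refine Finset.sum_le_sum_of_subset_of_nonneg ?_ fun p _ _ => by positivity
      intro p hp
      obtain ⟨hpI, -⟩ := Finset.mem_filter.1 hp
      obtain ⟨h2, h3⟩ := Finset.mem_Ioc.1 hpI
      exact Finset.mem_Ioc.2 ⟨h2, h3.trans (le_max_right _ _)⟩
    have h2 := sum_Ioc_inv_sq_le_sub (α := ℝ) hy0 (le_max_left y (2 ^ (u + 1)))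
    refine h1.trans (h2.trans ?_)
    have : (0 : ℝ) ≤ ((max y (2 ^ (u + 1)) : ℕ) : ℝ)⁻¹ := by positivity
    linarith
  calc (S.card : ℝ) * s ^ 7 ≤ (∑ p ∈ P, ∑ w ∈ W p, ((Q p w).card : ℝ)) * s ^ 7 :=
        mul_le_mul_of_nonneg_right hScard (by positivity)
    _ = ∑ p ∈ P, ∑ w ∈ W p, ((Q p w).card : ℝ) * s ^ 7 := by
        rw [Finset.sum_mul]
        exact Finset.sum_congr rfl fun p _ => Finset.sum_mul _ _ _
    _ ≤ ∑ p ∈ P, ∑ w ∈ W p, 16 * Φ u * 4 ^ u * ((p : ℝ) ^ 2)⁻¹ :=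
        Finset.sum_le_sum fun p hp => Finset.sum_le_sum fun w hw => hone p hp w hw
    _ = ∑ p ∈ P, ((W p).card : ℝ) * (16 * Φ u * 4 ^ u * ((p : ℝ) ^ 2)⁻¹) := by
        refine Finset.sum_congr rfl fun p _ => ?_
        rw [Finset.sum_const, nsmul_eq_mul]
    _ ≤ ∑ p ∈ P, 2 * (16 * Φ u * 4 ^ u * ((p : ℝ) ^ 2)⁻¹) := by
        refine Finset.sum_le_sum fun p _ => ?_
        exact mul_le_mul_of_nonneg_right (hWcard p) (by positivity)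
    _ = 32 * Φ u * 4 ^ u * ∑ p ∈ P, ((p : ℝ) ^ 2)⁻¹ := by
        rw [Finset.mul_sum]
        refine Finset.sum_congr rfl fun p _ => ?_
        ring
    _ ≤ 32 * Φ u * 4 ^ u * (y : ℝ)⁻¹ := mul_le_mul_of_nonneg_left hsum (by positivity)
    _ = 32 / y * Φ u * 4 ^ u := by rw [div_eq_mul_inv]; ring

end Pool.Agent.T6
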